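import Pool.Agent.W5h40.RS.Pert

/-!
# Surjectivity of the bordered map when one is a simple eigenvalue
-/

open Set Filter Topology

namespace Pool.Agent.W5h40.RS

variable {E : Type} [NormedAddCommGroup E] [NormedSpace ℝ E] [FiniteDimensional ℝ E]

theorem bordered_surj (M : E →L[ℝ] E) {c : E} (hc : c ≠ 0) (hMc : M c = c)
    (h1 : Module.finrank ℝ (Module.End.maxGenEigenspace (M : E →ₗ[ℝ] E) 1) = 1) :
    Function.Surjective (bordered M c) := by
  set G := Module.End.maxGenEigenspace (M : E →ₗ[ℝ] E) 1 with hG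
  set D : E →ₗ[ℝ] E := (M : E →ₗ[ℝ] E) - LinearMap.id with hD
  have hDapply : ∀ v, D v = M v - v := fun v => rfl
  have hmemG : ∀ u, (D ∘ₗ D) u = 0 → u ∈ G := by
    intro u hu
    rw [hG, Module.End.mem_maxGenEigenspace]
    refine ⟨2, ?_⟩
    rw [one_smul, pow_two]
    exact hu
  have hcG : c ∈ G := by
    apply hmemG
    have : D c = 0 := by rw [hDapply, hMc, sub_self]
    simp [this]
  have hkerG : LinearMap.ker D ≤ G := by
    intro u hu
    apply hmemG
    have : D u = 0 := hu
    simp [this]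
  have hspan : ∀ u ∈ G, ∃ a : ℝ, a • c = u := by
    intro u hu
    obtain ⟨a, ha⟩ := (finrank_eq_one_iff_of_nonzero' (⟨c, hcG⟩ : G)
      (by simpa [Subtype.ext_iff] using hc)).1 h1 ⟨u, hu⟩
    exact ⟨a, by simpa [Subtype.ext_iff] using ha⟩
  have hnot : c ∉ LinearMap.range D := by
    rintro ⟨u, hu⟩
    have h2 : u ∈ G := by
      apply hmemG
      rw [LinearMap.comp_apply, hu, hDapply, hMc, sub_self]
    obtain ⟨a, rfl⟩ := hspan u h2
    apply hc
    rw [← hu, hDapply, map_smul, hMc, sub_self]
  have hle : LinearMap.range D ≤ LinearMap.range (bordered M c) := by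
    rintro _ ⟨u, rfl⟩
    exact ⟨(u, 0), by simp [bordered, hDapply]⟩
  have hcmem : c ∈ LinearMap.range (bordered M c) := ⟨(0, 1), by simp [bordered]⟩
  have hlt : LinearMap.range D < LinearMap.range (bordered M c) := by
    refine lt_of_le_of_ne hle ?_
    intro h
    exact hnot (h ▸ hcmem)
  have hf1 := Submodule.finrank_lt_finrank_of_lt hlt
  have hf2 := LinearMap.finrank_range_add_finrank_ker D
  have hf3 := Submodule.finrank_mono hkerG
  rw [h1] at hf3
  have hf4 : Module.finrank ℝ (LinearMap.range (bordered M c)) = Module.finrank ℝ E := by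
    apply le_antisymm (Submodule.finrank_le _)
    omega
  rw [← LinearMap.range_eq_top]
  exact Submodule.eq_top_of_finrank_eq hf4

namespace PData

variable {f : E → E} {x : ℝ → E} {T : ℝ} {Φ : ℝ → E →L[ℝ] E}

omit [FiniteDimensional ℝ E] in
theorem velocity_ne_zero (h : PData f x T Φ) (hne : ∃ s t, x s ≠ x t) : f (x 0) ≠ 0 := by
  intro h0
  have h1 : ∀ t, f (x t) = 0 := by
    intro t
    rw [← h.Φ_flow t, h0, map_zero]
  obtain ⟨s, t, hst⟩ := hne
  apply hst
  apply is_const_of_deriv_eq_zero
  · intro t; exact (h.sol t).differentiableAt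
  · intro t
    rw [(h.sol t).deriv, h1]

theorem surj_of_simple (h : PData f x T Φ) (hne : ∃ s t, x s ≠ x t)
    (hmult : (LinearMap.charpoly (Φ T : E →ₗ[ℝ] E)).rootMultiplicity 1 = 1) :
    Function.Surjective (bordered (Φ T) (T • f (x 0))) := by
  apply bordered_surj
  · exact smul_ne_zero h.pos.ne' (h.velocity_ne_zero hne)
  · have := h.per 0
    rw [zero_add] at this
    rw [map_smul, h.Φ_flow, this]
  · rw [LinearMap.finrank_maxGenEigenspace_eq]
    exact hmult

end PData

end Pool.Agent.W5h40.RS
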