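import Pool.Agent.W5h40.RS.Inv
import Pool.Agent.W5h40.RS.Spec

/-!
# The rigid synchrony theorem
-/

open Set Filter Topology MeasureTheory

namespace Pool.Agent.W5h40.RS

theorem lip_of_c1near {E : Type} [NormedAddCommGroup E] [NormedSpace ℝ E] {f g : E → E}
    (hf : ContDiff ℝ 1 f) (hg : ContDiff ℝ 1 g) {δ : ℝ} (h : C1Near f g δ) (y z : E) :
    ‖(g y - f y) - (g z - f z)‖ ≤ δ * ‖y - z‖ := by
  have hfd : Differentiable ℝ f := hf.differentiable (by norm_num)
  have hgd : Differentiable ℝ g := hg.differentiable (by norm_num)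
  have h1 := (convex_univ (𝕜 := ℝ) (E := E)).norm_image_sub_le_of_norm_fderiv_le
    (f := fun y => g y - f y) (C := δ) (x := z) (y := y) (𝕜 := ℝ)
    (fun w _ => (hgd w).fun_sub (hfd w)) (fun w _ => by
      rw [fderiv_fun_sub (hgd w) (hfd w)]
      exact (h w).2) (mem_univ _) (mem_univ _)
  exact h1

theorem close_of_c1near {E : Type} [NormedAddCommGroup E] [NormedSpace ℝ E] {f g : E → E}
    (hf : ContDiff ℝ 1 f) (hg : ContDiff ℝ 1 g) {δ δ₀ : ℝ} (h : C1Near f g δ) (hδ : δ ≤ δ₀) :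
    Close f δ₀ g :=
  ⟨hg.continuous, fun y => (h y).1.trans hδ, fun y z =>
    (lip_of_c1near hf hg h y z).trans (mul_le_mul_of_nonneg_right hδ (norm_nonneg _))⟩

namespace Network

variable {N : Network}

/-- Nearby trajectories have no more synchronies. -/
theorem exists_separation (x : ℝ → N.Phase) : ∃ r > 0, ∀ Y : ℝ → N.Phase,
    (∀ t, ‖Y t - x t‖ < r) → ∀ c d, N.Synchronous Y c d → N.Synchronous x c d := by
  have h1 : ∀ c d : N.Node, ∃ r : ℝ, 0 < r ∧ ∀ Y : ℝ → N.Phase, (∀ t, ‖Y t - x t‖ < r) →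
      N.Synchronous Y c d → N.Synchronous x c d := by
    intro c d
    by_cases h : N.Synchronous x c d
    · exact ⟨1, one_pos, fun _ _ _ => h⟩
    by_cases hdim : N.dim c = N.dim d
    swap
    · exact ⟨1, one_pos, fun Y _ hY => absurd hY.choose hdim⟩
    have h2 : ∃ t, move hdim (x t c) ≠ x t d := by
      by_contra hcon
      push Not at hcon
      exact h ⟨hdim, hcon⟩
    obtain ⟨t, ht⟩ := h2
    have h3 : 0 < ‖move hdim (x t c) - x t d‖ := norm_pos_iff.2 (sub_ne_zero.2 ht)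
    refine ⟨‖move hdim (x t c) - x t d‖ / 2, by positivity, fun Y hY hsync => ?_⟩
    exfalso
    obtain ⟨_, hs⟩ := hsync
    have h4 := hs t
    have h5 : move hdim (x t c) - x t d = - move hdim ((Y t - x t) c) + (Y t - x t) d := by
      rw [Pi.sub_apply, Pi.sub_apply, move_sub, h4]; abel
    have h6 : ‖move hdim (x t c) - x t d‖ ≤ ‖(Y t - x t) c‖ + ‖(Y t - x t) d‖ := by
      rw [h5]
      refine (norm_add_le _ _).trans ?_
      rw [norm_neg, norm_move]
    have h7 := norm_le_pi_norm (Y t - x t) c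
    have h8 := norm_le_pi_norm (Y t - x t) d
    have h9 := hY t
    linarith
  choose r hr hY using h1
  have h2 : ∀ᶠ s in 𝓝[>] (0 : ℝ), ∀ c d, s ≤ r c d := by
    rw [eventually_all]
    intro c
    rw [eventually_all]
    intro d
    have h3 : ∀ᶠ s in 𝓝[>] (0 : ℝ), s ∈ Ioo 0 (r c d) := Ioo_mem_nhdsGT (hr c d)
    filter_upwards [h3] with s hs
    exact hs.2.le
  obtain ⟨s, hs, hs0⟩ := (h2.and self_mem_nhdsWithin).exists
  exact ⟨s, hs0, fun Y hYx c d => hY c d Y (fun t => (hYx t).trans_le (hs c d))⟩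

/-- **Rigid synchrony theorem.** -/
theorem rigid_synchrony (N : Network) (f : N.Phase → N.Phase) (hf : N.Admissible f)
    (x : ℝ → N.Phase) (T : ℝ) (hx : PeriodicOrbit f x T) (hyp : HyperbolicMultipliers f x T)
    (hrig : N.Rigid f x T) : N.Balanced (N.Synchronous x) := by
  obtain ⟨Φ, hΦ0, hΦd, hmult, -⟩ := hyp
  have hfC := hf.contDiff
  have hT := hx.period_pos
  have D : PData f x T Φ := ⟨hfC, hx.solution, hT, hx.periodic, hΦ0, hΦd⟩
  have hmult' : (LinearMap.charpoly (Φ T : N.Phase →ₗ[ℝ] N.Phase)).rootMultiplicity 1 = 1 := by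
    have h1 := Polynomial.eq_rootMultiplicity_map
      (p := LinearMap.charpoly (Φ T : N.Phase →ₗ[ℝ] N.Phase))
      (f := algebraMap ℝ ℂ) (algebraMap ℝ ℂ).injective 1
    rw [map_one] at h1
    rw [h1]
    exact hmult
  obtain ⟨δ₀, hδ₀, C, hC, X, τ, hsol, hdep, hXf, hτf⟩ :=
    D.persist (D.surj_of_simple hx.nonconstant hmult')
  obtain ⟨r, hr, hsep⟩ := exists_separation x
  obtain ⟨ε, hε, δ, hδ, hR⟩ := hrig
  obtain ⟨s₀, t₀, hst⟩ := hx.nonconstant
  have hgap : 0 < ‖x s₀ - x t₀‖ := norm_pos_iff.2 (sub_ne_zero.2 hst)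
  set q : ℝ := min (min r ε) (min (ε / T) (‖x s₀ - x t₀‖ / 2)) with hq
  have hq0 : 0 < q := lt_min (lt_min hr hε) (lt_min (by positivity) (by positivity))
  set δ₁ : ℝ := min (min δ₀ δ) (q / (C * T)) with hδ₁
  have hδ₁0 : 0 < δ₁ := lt_min (lt_min hδ₀ hδ) (by positivity)
  have hδ₁₀ : δ₁ ≤ δ₀ := (min_le_left _ _).trans (min_le_left _ _)
  have hδ₁δ : δ₁ ≤ δ := (min_le_left _ _).trans (min_le_right _ _)
  have hδ₁q : C * T * δ₁ ≤ q := by
    have h1 : δ₁ ≤ q / (C * T) := min_le_right _ _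
    rw [le_div_iff₀ (by positivity)] at h1
    linarith
  set 𝒢 : Set (N.Phase → N.Phase) :=
    {g | N.Admissible g ∧ ∃ δ', 0 ≤ δ' ∧ δ' < δ₁ ∧ C1Near f g δ'} with h𝒢
  have hclose : ∀ g ∈ 𝒢, Close f δ₀ g := by
    rintro g ⟨hga, δ', -, hδ'1, hnear⟩
    exact close_of_c1near hfC hga.contDiff hnear (hδ'1.le.trans hδ₁₀)
  have hf𝒢 : f ∈ 𝒢 := by
    refine ⟨hf, 0, le_rfl, hδ₁0, fun y => ?_⟩
    simp
  have K : Ctx N 𝒢 T C X τ := by
    refine ⟨fun g hg => hg.1, ?_, hT, hC, fun g hg => (hsol g (hclose g hg)).1,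
      fun g hg => (hsol g (hclose g hg)).2.1, fun g hg => (hsol g (hclose g hg)).2.2,
      fun g₁ hg₁ g₂ hg₂ => (hdep g₁ g₂ (hclose g₁ hg₁) (hclose g₂ hg₂)).1⟩
    rintro g ⟨hga, δ', hδ'0, hδ'1, hnear⟩
    refine ⟨(δ₁ - δ') / 2, by linarith, fun p hadm hpC hp1 hp2 => ?_⟩
    refine ⟨hadm, δ' + (δ₁ - δ') / 2, by linarith, by linarith, fun y => ⟨?_, ?_⟩⟩
    · have h1 : g y + p y - f y = (g y - f y) + p y := by abel
      show ‖g y + p y - f y‖ ≤ _
      rw [h1]
      exact (norm_add_le _ _).trans (add_le_add (hnear y).1 (hp1 y))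
    · have hgd : DifferentiableAt ℝ g y := hga.contDiff.differentiable (by norm_num) y
      have hpd : DifferentiableAt ℝ p y := hpC.differentiable (by norm_num) y
      have hlip : LipschitzWith ⟨(δ₁ - δ') / 2, by linarith⟩ p := by
        apply LipschitzWith.of_dist_le_mul
        intro a b
        rw [dist_eq_norm, dist_eq_norm]
        exact hp2 a b
      have h2 : ‖fderiv ℝ p y‖ ≤ (δ₁ - δ') / 2 := norm_fderiv_le_of_lipschitz ℝ hlip
      rw [fderiv_fun_add hgd hpd]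
      have h1 : fderiv ℝ g y + fderiv ℝ p y - fderiv ℝ f y =
          (fderiv ℝ g y - fderiv ℝ f y) + fderiv ℝ p y := by abel
      rw [h1]
      exact (norm_add_le _ _).trans (add_le_add (hnear y).2 h2)
  obtain ⟨g, hg, hbal⟩ := K.exists_balanced ⟨f, hf𝒢⟩
  -- closeness of the selected orbit to the original one
  have hIle : ∫ s in (0 : ℝ)..T, ‖g (X g s) - f (X g s)‖ < δ₁ * T := by
    obtain ⟨hga, δ', hδ'0, hδ'1, hnear⟩ := hg
    have hgc : Continuous (X g) := K.cont ⟨hga, δ', hδ'0, hδ'1, hnear⟩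
    have hc : Continuous (fun s => ‖g (X g s) - f (X g s)‖) :=
      ((hga.contDiff.continuous.comp hgc).sub (hfC.continuous.comp hgc)).norm
    calc ∫ s in (0 : ℝ)..T, ‖g (X g s) - f (X g s)‖ ≤ ∫ _s in (0 : ℝ)..T, δ' :=
          intervalIntegral.integral_mono_on hT.le (hc.intervalIntegrable _ _)
            (continuous_const.intervalIntegrable _ _) (fun s _ => (hnear _).1)
      _ = δ' * T := by rw [intervalIntegral.integral_const, sub_zero, smul_eq_mul]; ring
      _ < δ₁ * T := mul_lt_mul_of_pos_right hδ'1 hT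
  have hCI : C * ∫ s in (0 : ℝ)..T, ‖g (X g s) - f (X g s)‖ < q := by
    calc _ < C * (δ₁ * T) := mul_lt_mul_of_pos_left hIle hC
      _ = C * T * δ₁ := by ring
      _ ≤ q := hδ₁q
  have hd := hdep g f (hclose g hg) (hclose f hf𝒢)
  have hXg : ∀ t, ‖X g t - x t‖ < q := by
    intro t
    rw [← hXf t]
    exact (hd.1 t).trans_lt hCI
  have hτg : |τ g - 1| < q := by
    rw [← hτf]
    exact hd.2.trans_lt hCI
  have hτ0 : 0 < τ g := (hsol g (hclose g hg)).2.2
  have hqr : q ≤ r := (min_le_left _ _).trans (min_le_left _ _)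
  have hqε : q ≤ ε := (min_le_left _ _).trans (min_le_right _ _)
  have hqεT : q ≤ ε / T := (min_le_right _ _).trans (min_le_left _ _)
  have hqgap : q ≤ ‖x s₀ - x t₀‖ / 2 := (min_le_right _ _).trans (min_le_right _ _)
  have hXne : X g s₀ ≠ X g t₀ := by
    intro heq
    have h1 : x s₀ - x t₀ = (X g t₀ - x t₀) - (X g s₀ - x s₀) := by rw [heq]; abel
    have h2 : ‖x s₀ - x t₀‖ ≤ ‖X g t₀ - x t₀‖ + ‖X g s₀ - x s₀‖ := by
      rw [h1]; exact norm_sub_le _ _
    have h3 := hXg s₀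
    have h4 := hXg t₀
    linarith
  -- the reparametrized orbit
  have hy : PeriodicOrbit g (fun s => X g (s / τ g)) (T * τ g) := by
    refine ⟨fun s => ?_, mul_pos hT hτ0, fun s => ?_, ⟨s₀ * τ g, t₀ * τ g, ?_⟩⟩
    · have h1 : HasDerivAt (fun s : ℝ => s / τ g) (1 / τ g) s := (hasDerivAt_id s).div_const _
      have h2 := (K.deriv g hg (s / τ g)).scomp s h1
      have h3 : (1 / τ g) • τ g • g (X g (s / τ g)) = g (X g (s / τ g)) := by
        rw [smul_smul, one_div, inv_mul_cancel₀ hτ0.ne', one_smul]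
      rw [h3] at h2
      exact h2
    · show X g ((s + T * τ g) / τ g) = X g (s / τ g)
      rw [add_div, mul_div_assoc, div_self hτ0.ne', mul_one]
      exact K.per g hg _
    · show X g (s₀ * τ g / τ g) ≠ X g (t₀ * τ g / τ g)
      rw [mul_div_assoc, mul_div_assoc, div_self hτ0.ne', mul_one, mul_one]
      exact hXne
  have hnear : C1Near f g δ := by
    obtain ⟨hga, δ', hδ'0, hδ'1, hnear⟩ := hg
    exact fun y => ⟨(hnear y).1.trans (hδ'1.le.trans hδ₁δ),
      (hnear y).2.trans (hδ'1.le.trans hδ₁δ)⟩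
  have hTT : |T * τ g - T| < ε := by
    have h1 : T * τ g - T = T * (τ g - 1) := by ring
    rw [h1, abs_mul, abs_of_pos hT]
    calc T * |τ g - 1| < T * q := mul_lt_mul_of_pos_left hτg hT
      _ ≤ T * (ε / T) := mul_le_mul_of_nonneg_left hqεT hT.le
      _ = ε := by field_simp
  have hpar : ∀ t : ℝ, t * (T * τ g) / T / τ g = t := fun t => by
    have := hT.ne'
    have := hτ0.ne'
    field_simp
  have hclose2 : ∀ t, ‖(fun s => X g (s / τ g)) (t * (T * τ g) / T) - x t‖ < ε := by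
    intro t
    show ‖X g (t * (T * τ g) / T / τ g) - x t‖ < ε
    rw [hpar]
    exact (hXg t).trans_le hqε
  have hiff : ∀ c d, N.Synchronous x c d ↔ N.Synchronous (X g) c d := by
    intro c d
    constructor
    · intro h
      obtain ⟨h1, h2⟩ := hR g hg.1 hnear _ _ hy hTT hclose2 c d h
      refine ⟨h1, fun t => ?_⟩
      have h3 := h2 (t * τ g)
      have h4 : t * τ g / τ g = t := by
        rw [mul_div_assoc, div_self hτ0.ne', mul_one]
      simp only [h4] at h3
      exact h3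
    · exact hsep (X g) (fun t => (hXg t).trans_le hqr) c d
  intro c d hcd
  obtain ⟨β, hβ⟩ := hbal c d ((hiff c d).1 hcd)
  exact ⟨β, fun a => (hiff _ _).2 (hβ a)⟩

end Network

end Pool.Agent.W5h40.RS
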