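import Pool.Agent.W5h40.RS.Sel

/-!
# Localized perturbations at moving nodes
-/

open Set Filter Topology MeasureTheory

namespace Pool.Agent.W5h40.RS

namespace Network

variable {N : Network}

/-- The constant vector one. -/
def ones (m : ℕ) : Fin m → ℝ := fun _ => 1

theorem move_ones {m n : ℕ} (h : m = n) : move h (ones m) = ones n := rfl

theorem norm_ones_le (m : ℕ) : ‖ones m‖ ≤ 1 := by
  rw [pi_norm_le_iff_of_nonneg zero_le_one]
  intro i
  simp [ones]

theorem exists_bump (V : Type) [NormedAddCommGroup V] [NormedSpace ℝ V] [FiniteDimensional ℝ V] :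
    ∃ φ : V → ℝ, ∃ L : ℝ, 1 ≤ L ∧ ContDiff ℝ 1 φ ∧ (∀ z, 0 ≤ φ z ∧ φ z ≤ 1) ∧
      (∀ z, ‖z‖ ≤ 1 / 2 → φ z = 1) ∧ (∀ z, 1 ≤ ‖z‖ → φ z = 0) ∧
      ∀ y z, |φ y - φ z| ≤ L * ‖y - z‖ := by
  let B : ContDiffBump (0 : V) := ⟨1 / 2, 1, by norm_num, by norm_num⟩
  have hc : ContDiff ℝ 1 B := B.contDiff
  obtain ⟨L, hL⟩ := ContDiff.lipschitzWith_of_hasCompactSupport B.hasCompactSupport hc
    (by norm_num)
  refine ⟨B, max L 1, le_max_right _ _, hc, fun z => ⟨B.nonneg, B.le_one⟩, fun z hz => ?_,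
    fun z hz => ?_, fun y z => ?_⟩
  · apply B.one_of_mem_closedBall
    rw [mem_closedBall_zero_iff]
    exact hz
  · apply B.zero_of_le_dist
    rw [dist_zero_right]
    exact hz
  · have := hL.dist_le_mul y z
    rw [Real.dist_eq, dist_eq_norm] at this
    exact this.trans (mul_le_mul_of_nonneg_right (le_max_left _ _) (norm_nonneg _))

open Classical in
/-- The bump family supported at one node. -/
noncomputable def bumpF (c : N.Node) (φ : N.Inp c → ℝ) (a : N.Inp c) (w : ℝ) :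
    (c' : N.Node) → N.Inp c' → N.St c' :=
  Function.update (fun _ _ => 0) c (fun z => (w * φ (w⁻¹ • (z - a))) • ones (N.dim c))

section

variable {c : N.Node} {φ : N.Inp c → ℝ} {a : N.Inp c}

theorem bumpF_self (w : ℝ) (z : N.Inp c) :
    bumpF c φ a w c z = (w * φ (w⁻¹ • (z - a))) • ones (N.dim c) := by
  classical
  unfold bumpF
  rw [Function.update_self]

theorem bumpF_ne (w : ℝ) {c' : N.Node} (h : c' ≠ c) (z : N.Inp c') :
    bumpF c φ a w c' z = 0 := by
  classical
  unfold bumpF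
  rw [Function.update_of_ne h]

theorem bumpF_contDiff (hφ : ContDiff ℝ 1 φ) (w : ℝ) (c' : N.Node) :
    ContDiff ℝ 1 (bumpF c φ a w c') := by
  by_cases h : c' = c
  · subst h
    have : bumpF c' φ a w c' = fun z => (w * φ (w⁻¹ • (z - a))) • ones (N.dim c') := by
      funext z; exact bumpF_self w z
    rw [this]
    have h0 : ContDiff ℝ 1 (fun z : N.Inp c' => z - a) := contDiff_id.sub contDiff_const
    have h1 : ContDiff ℝ 1 (fun z : N.Inp c' => w⁻¹ • (z - a)) := h0.const_smul w⁻¹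
    exact (contDiff_const.mul (hφ.comp h1)).smul contDiff_const
  · have : bumpF c φ a w c' = fun z => 0 := by
      funext z; exact bumpF_ne w h z
    rw [this]
    exact contDiff_const

theorem bumpF_norm (hφ : ∀ z, 0 ≤ φ z ∧ φ z ≤ 1) {w : ℝ} (hw : 0 ≤ w) (c' : N.Node)
    (z : N.Inp c') : ‖bumpF c φ a w c' z‖ ≤ w := by
  by_cases h : c' = c
  · subst h
    rw [bumpF_self, norm_smul, Real.norm_eq_abs, abs_of_nonneg (mul_nonneg hw (hφ _).1)]
    calc w * φ (w⁻¹ • (z - a)) * ‖ones (N.dim c')‖ ≤ w * 1 * 1 := by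
          apply mul_le_mul _ (norm_ones_le _) (norm_nonneg _) (by linarith)
          exact mul_le_mul_of_nonneg_left (hφ _).2 hw
      _ = w := by ring
  · rw [bumpF_ne w h, norm_zero]
    exact hw

theorem bumpF_lip {L : ℝ} (hL : 1 ≤ L) (hφ : ∀ y z, |φ y - φ z| ≤ L * ‖y - z‖) {w : ℝ}
    (hw : 0 < w) (c' : N.Node) (y z : N.Inp c') :
    ‖bumpF c φ a w c' y - bumpF c φ a w c' z‖ ≤ L * ‖y - z‖ := by
  by_cases h : c' = c
  · subst h
    rw [bumpF_self, bumpF_self, ← sub_smul, ← mul_sub, norm_smul, Real.norm_eq_abs, abs_mul,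
      abs_of_pos hw]
    have h1 := hφ (w⁻¹ • (y - a)) (w⁻¹ • (z - a))
    rw [← smul_sub, sub_sub_sub_cancel_right, norm_smul, norm_inv, Real.norm_eq_abs,
      abs_of_pos hw] at h1
    calc w * |φ (w⁻¹ • (y - a)) - φ (w⁻¹ • (z - a))| * ‖ones (N.dim c')‖ ≤
        w * (L * (w⁻¹ * ‖y - z‖)) * 1 := by
          apply mul_le_mul _ (norm_ones_le _) (norm_nonneg _) (by positivity)
          exact mul_le_mul_of_nonneg_left h1 hw.le
      _ = L * ‖y - z‖ := by field_simp
  · rw [bumpF_ne w h, bumpF_ne w h, sub_self, norm_zero]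
    positivity

theorem symV_bumpF (w : ℝ) (x : N.Phase) (i : N.Node) :
    symV (bumpF c φ a w) x i =
      (∑ β : N.InputIso c i, w * φ (w⁻¹ • (pull β (inputs x i) - a))) • ones (N.dim i) := by
  show symF (bumpF c φ a w) i (inputs x i) = _
  unfold symF
  rw [Finset.sum_eq_single c]
  · rw [Finset.sum_smul]
    refine Finset.sum_congr rfl fun β _ => ?_
    rw [bumpF_self, move_smul, move_ones]
  · intro c' _ hc'
    refine Finset.sum_eq_zero fun β _ => ?_
    rw [bumpF_ne w hc', move_zero]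
  · intro h
    exact absurd (Finset.mem_univ c) h

end

namespace Ctx

variable {𝒢 : Set (N.Phase → N.Phase)} {T C : ℝ}
  {X : (N.Phase → N.Phase) → ℝ → N.Phase} {τ : (N.Phase → N.Phase) → ℝ}

/-- Near a moving instant, there is an instant whose input state is visited only for a null
set of times. -/
theorem good_time (K : Ctx N 𝒢 T C X τ) {g₀ : N.Phase → N.Phase} (hg : g₀ ∈ 𝒢) {t₀ : ℝ}
    {c j : N.Node} (hj : j = c ∨ ∃ a : N.In c, j = N.tail a.1) (hV : g₀ (X g₀ t₀) j ≠ 0)
    {U : Set ℝ} (hU : U ∈ 𝓝 t₀) :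
    ∃ t₁ ∈ U, ∀ᵐ s ∂(volume.restrict (Ioc 0 T)), ∀ (i : N.Node) (β : N.InputIso c i),
      pull β (inputs (X g₀ s) i) ≠ inputs (X g₀ t₁) c := by
  -- a coordinate with non-zero velocity
  obtain ⟨k, hk⟩ : ∃ k, g₀ (X g₀ t₀) j k ≠ 0 := by
    by_contra hcon
    push Not at hcon
    exact hV (funext hcon)
  have hcV : Continuous (fun t => g₀ (X g₀ t) j k) :=
    (continuous_apply k).comp ((continuous_apply j).comp (K.contV hg))
  have hne : ∀ᶠ t in 𝓝 t₀, g₀ (X g₀ t) j k ≠ 0 := hcV.continuousAt.eventually_ne hk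
  obtain ⟨r, hr, hball⟩ := Metric.mem_nhds_iff.1 (inter_mem hU hne)
  have hd : ∀ t, HasDerivAt (fun t => X g₀ t j k) (τ g₀ * g₀ (X g₀ t) j k) t := by
    intro t
    have h1 := K.deriv g₀ hg t
    rw [hasDerivAt_pi] at h1
    have h2 := h1 j
    rw [hasDerivAt_pi] at h2
    exact h2 k
  have hinj' : ∀ s t, s ∈ Metric.ball t₀ r → t ∈ Metric.ball t₀ r → s < t →
      X g₀ s j k ≠ X g₀ t j k := by
    intro s t hs ht hst heq
    obtain ⟨u, hu, hu0⟩ := exists_hasDerivAt_eq_zero hst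
      (fun y _ => (hd y).continuousAt.continuousWithinAt) heq (fun y _ => hd y)
    have hu' : u ∈ Metric.ball t₀ r := by
      rw [Real.ball_eq_Ioo] at hs ht ⊢
      exact ⟨hs.1.trans hu.1, hu.2.trans ht.2⟩
    have h1 : g₀ (X g₀ u) j k ≠ 0 := (hball hu').2
    exact mul_ne_zero (K.τ_pos g₀ hg).ne' h1 hu0
  have hinj : InjOn (fun t => inputs (X g₀ t) c) (Metric.ball t₀ r) := by
    intro s hs t ht hst
    have hjk : X g₀ s j = X g₀ t j := by
      rcases hj with rfl | ⟨a, rfl⟩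
      · exact congrArg Prod.fst hst
      · exact congrFun (congrArg Prod.snd hst) a
    rcases lt_trichotomy s t with h | h | h
    · exact absurd (congrFun hjk k) (hinj' s t hs ht h)
    · exact h
    · exact absurd (congrFun hjk k).symm (hinj' t s ht hs h)
  -- the bad inputs are countable
  let μ : Measure ℝ := volume.restrict (Ioc 0 T)
  let bad : Set (N.Inp c) := ⋃ (i : N.Node) (β : N.InputIso c i),
    {a | 0 < μ {s | pull β (inputs (X g₀ s) i) = a}}
  have hbad : bad.Countable := by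
    refine countable_iUnion fun i => countable_iUnion fun β => ?_
    apply Measure.countable_meas_level_set_pos
    have : Continuous (fun s => pull β (inputs (X g₀ s) i)) :=
      (pullL β).continuous.comp ((inputsL i).continuous.comp (K.cont hg))
    exact this.measurable
  have hcount : ({t | t ∈ Metric.ball t₀ r ∧ inputs (X g₀ t) c ∈ bad}).Countable := by
    refine MapsTo.countable_of_injOn (f := fun t => inputs (X g₀ t) c) (t := bad)
      (fun t ht => ht.2) (hinj.mono fun t ht => ht.1) hbad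
  obtain ⟨t₁, ht₁, hgood⟩ : ∃ t₁ ∈ Metric.ball t₀ r, inputs (X g₀ t₁) c ∉ bad := by
    by_contra hcon
    push Not at hcon
    have h1 : Metric.ball t₀ r ⊆ {t | t ∈ Metric.ball t₀ r ∧ inputs (X g₀ t) c ∈ bad} :=
      fun t ht => ⟨ht, hcon t ht⟩
    have h2 := (hcount.mono h1).measure_zero (volume : Measure ℝ)
    rw [Real.volume_ball] at h2
    simp only [ENNReal.ofReal_eq_zero] at h2
    linarith
  refine ⟨t₁, (hball ht₁).1, ?_⟩
  rw [ae_all_iff]
  intro i
  rw [ae_all_iff]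
  intro β
  rw [ae_iff]
  have h1 : inputs (X g₀ t₁) c ∉ {a | 0 < μ {s | pull β (inputs (X g₀ s) i) = a}} := by
    intro h2
    exact hgood (mem_iUnion.2 ⟨i, mem_iUnion.2 ⟨β, h2⟩⟩)
  simp only [mem_ofPred_eq, not_lt, nonpos_iff_eq_zero] at h1
  simpa only [not_not] using h1

end Ctx

end Network

end Pool.Agent.W5h40.RS
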