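import Pool.Agent.W5h40.RS.Moving

/-!
# Realizing prescribed values by admissible perturbations
-/

open Set Filter Topology MeasureTheory

namespace Pool.Agent.W5h40.RS

theorem exists_interp (V : Type) [NormedAddCommGroup V] [NormedSpace ℝ V] [FiniteDimensional ℝ V]
    (W : Type) [NormedAddCommGroup W] [NormedSpace ℝ W] (S : Finset V) (val : V → W) :
    ∃ ψ : V → W, ∃ K : ℝ, 0 ≤ K ∧ ContDiff ℝ 1 ψ ∧ (∀ z, ‖ψ z‖ ≤ K) ∧
      (∀ y z, ‖ψ y - ψ z‖ ≤ K * ‖y - z‖) ∧ ∀ z ∈ S, ψ z = val z := by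
  classical
  obtain ⟨φ, L, hL, hφC, hφ01, hφ1, hφ0, hφL⟩ := Network.exists_bump V
  obtain ⟨r, hr, hr0⟩ : ∃ r : ℝ, (∀ z ∈ S, ∀ s ∈ S, z ≠ s → r ≤ ‖z - s‖) ∧ 0 < r := by
    have h1 : ∀ᶠ r in 𝓝[>] (0 : ℝ), ∀ z ∈ S, ∀ s ∈ S, z ≠ s → r ≤ ‖z - s‖ := by
      rw [Filter.eventually_all_finset]
      intro z _
      rw [Filter.eventually_all_finset]
      intro s _
      by_cases hzs : z = s
      · exact Eventually.of_forall fun _ h => absurd hzs h
      · have h2 : 0 < ‖z - s‖ := norm_pos_iff.2 (sub_ne_zero.2 hzs)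
        have h3 : ∀ᶠ r in 𝓝[>] (0 : ℝ), r ∈ Ioo 0 ‖z - s‖ := Ioo_mem_nhdsGT h2
        filter_upwards [h3] with r hr _
        exact hr.2.le
    exact (h1.and self_mem_nhdsWithin).exists
  refine ⟨fun z => ∑ s ∈ S, φ (r⁻¹ • (z - s)) • val s,
    ∑ s ∈ S, (L * r⁻¹ + 1) * ‖val s‖, ?_, ?_, ?_, ?_, ?_⟩
  · exact Finset.sum_nonneg fun s _ => by positivity
  · refine ContDiff.sum fun s _ => ?_
    have h0 : ContDiff ℝ 1 (fun z : V => z - s) := contDiff_id.sub contDiff_const
    have h1 : ContDiff ℝ 1 (fun z : V => r⁻¹ • (z - s)) := h0.const_smul r⁻¹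
    exact (hφC.comp h1).smul contDiff_const
  · intro z
    refine norm_sum_le_of_le _ fun s _ => ?_
    rw [norm_smul, Real.norm_eq_abs, abs_of_nonneg (hφ01 _).1]
    refine mul_le_mul_of_nonneg_right ((hφ01 _).2.trans ?_) (norm_nonneg _)
    have : 0 ≤ L * r⁻¹ := by positivity
    linarith
  · intro y z
    rw [← Finset.sum_sub_distrib, Finset.sum_mul]
    refine norm_sum_le_of_le _ fun s _ => ?_
    rw [← sub_smul, norm_smul, Real.norm_eq_abs]
    have h1 := hφL (r⁻¹ • (y - s)) (r⁻¹ • (z - s))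
    rw [← smul_sub, sub_sub_sub_cancel_right, norm_smul, norm_inv, Real.norm_eq_abs,
      abs_of_pos hr0] at h1
    calc _ ≤ L * (r⁻¹ * ‖y - z‖) * ‖val s‖ := mul_le_mul_of_nonneg_right h1 (norm_nonneg _)
      _ ≤ (L * r⁻¹ + 1) * ‖val s‖ * ‖y - z‖ := by
          have : 0 ≤ ‖val s‖ * ‖y - z‖ := by positivity
          nlinarith
  · intro z hz
    show ∑ s ∈ S, φ (r⁻¹ • (z - s)) • val s = val z
    rw [Finset.sum_eq_single_of_mem z hz]
    · rw [sub_self, smul_zero, hφ1 0 (by simp), one_smul]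
    · intro s hs hsz
      rw [hφ0, zero_smul]
      rw [norm_smul, norm_inv, Real.norm_eq_abs, abs_of_pos hr0]
      have h2 := hr z hz s hs (Ne.symm hsz)
      rw [inv_mul_eq_div, le_div_iff₀ hr0, one_mul]
      exact h2

namespace Network

variable {N : Network}

/-- The number of input isomorphisms ending at `i`. -/
noncomputable def numIso (i : N.Node) : ℝ := ∑ c : N.Node, (Fintype.card (N.InputIso c i) : ℝ)

theorem numIso_pos (i : N.Node) : 0 < numIso i := by
  unfold numIso
  have h1 : (0 : ℝ) < Fintype.card (N.InputIso i i) := by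
    have : Nonempty (N.InputIso i i) := ⟨InputIso.refl i⟩
    exact_mod_cast Fintype.card_pos
  exact Finset.sum_pos' (fun _ _ => Nat.cast_nonneg _) ⟨i, Finset.mem_univ _, h1⟩

theorem numIso_eq {i j : N.Node} (γ : N.InputIso i j) : numIso i = numIso j := by
  unfold numIso
  refine Finset.sum_congr rfl fun c _ => ?_
  rw [Fintype.card_congr (InputIso.compEquiv c γ)]

theorem pull_symm_of {c d : N.Node} {β : N.InputIso c d} {y : N.Inp d} {z : N.Inp c}
    (h : pull β y = z) : pull β.symm z = y := by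
  rw [← h, pull_pull]
  have : β.symm.comp β = InputIso.refl d := InputIso.ext' fun a => by
    simp [InputIso.comp, InputIso.symm, InputIso.refl]
  rw [this, pull_refl]

/-- A vector of values compatible with the coincidences of inputs at `P` is realized by a
symmetrized family. -/
theorem realize (P b : N.Phase)
    (hb : ∀ (c d : N.Node) (β : N.InputIso c d), pull β (inputs P d) = inputs P c →
      move β.dim_eq (b c) = b d) :
    ∃ ψ : (c : N.Node) → N.Inp c → N.St c, ∃ K : ℝ, 0 ≤ K ∧ (∀ c, ContDiff ℝ 1 (ψ c)) ∧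
      (∀ c y, ‖ψ c y‖ ≤ K) ∧ (∀ c y z, ‖ψ c y - ψ c z‖ ≤ K * ‖y - z‖) ∧ symV ψ P = b := by
  classical
  -- values to be interpolated
  have hval : ∀ c : N.Node, ∃ val : N.Inp c → N.St c, ∀ (i : N.Node) (β : N.InputIso c i),
      val (pull β (inputs P i)) = move β.dim_eq.symm ((numIso i)⁻¹ • b i) := by
    intro c
    refine ⟨fun z => if h : ∃ q : (Σ i, N.InputIso c i), pull q.2 (inputs P q.1) = z then
      move h.choose.2.dim_eq.symm ((numIso h.choose.1)⁻¹ • b h.choose.1) else 0, ?_⟩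
    intro i β
    have hex : ∃ q : (Σ i, N.InputIso c i), pull q.2 (inputs P q.1) = pull β (inputs P i) :=
      ⟨⟨i, β⟩, rfl⟩
    simp only
    rw [dif_pos hex]
    generalize hq : hex.choose = q
    have hspec : pull q.2 (inputs P q.1) = pull β (inputs P i) := hq ▸ hex.choose_spec
    -- the composite isomorphism
    let γ : N.InputIso i q.1 := β.symm.comp q.2
    have hγ : pull γ (inputs P q.1) = inputs P i := by
      show pull (β.symm.comp q.2) _ = _
      rw [← pull_pull, hspec]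
      exact pull_symm_of rfl
    have h1 := hb i q.1 γ hγ
    rw [← h1, ← numIso_eq γ, move_smul, move_smul, move_move]
  choose val hval using hval
  let S : (c : N.Node) → Finset (N.Inp c) := fun c =>
    (Finset.univ : Finset (Σ i, N.InputIso c i)).image fun q => pull q.2 (inputs P q.1)
  have hS : ∀ (c i : N.Node) (β : N.InputIso c i), pull β (inputs P i) ∈ S c := fun c i β =>
    Finset.mem_image_of_mem (fun q : (Σ i, N.InputIso c i) => pull q.2 (inputs P q.1))
      (Finset.mem_univ (⟨i, β⟩ : Σ i, N.InputIso c i))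
  choose ψ K hK0 hψC hψn hψl hψv using fun c => exists_interp (N.Inp c) (N.St c) (S c) (val c)
  have hKle : ∀ c, K c ≤ ∑ c, K c := fun c =>
    Finset.single_le_sum (f := K) (fun c _ => hK0 c) (Finset.mem_univ c)
  refine ⟨ψ, ∑ c, K c, Finset.sum_nonneg fun c _ => hK0 c, hψC,
    fun c y => (hψn c y).trans (hKle c),
    fun c y z => (hψl c y z).trans (mul_le_mul_of_nonneg_right (hKle c) (norm_nonneg _)), ?_⟩
  funext i
  show symF ψ i (inputs P i) = b i
  unfold symF
  have h1 : ∀ (c : N.Node) (β : N.InputIso c i),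
      move β.dim_eq (ψ c (pull β (inputs P i))) = (numIso i)⁻¹ • b i := by
    intro c β
    rw [hψv c _ (hS c i β), hval, move_move]
    rfl
  simp only [h1, Finset.sum_const, Finset.card_univ]
  rw [← Finset.sum_smul]
  have h2 : ((∑ c : N.Node, Fintype.card (N.InputIso c i) : ℕ) : ℝ) = numIso i := by
    unfold numIso
    push_cast
    rfl
  rw [← Nat.cast_smul_eq_nsmul ℝ, h2, smul_smul, mul_inv_cancel₀ (numIso_pos i).ne', one_smul]

end Network

end Pool.Agent.W5h40.RS
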