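import Pool.Agent.W5h40.RS.Stat

/-!
# Balanced coincidences persist along the orbit
-/

open Set Filter Topology MeasureTheory

namespace Pool.Agent.W5h40.RS

namespace Network

variable {N : Network}

theorem move_congr (x : N.Phase) {i j : N.Node} (hij : i = j) {n : ℕ} (h1 : N.dim i = n)
    (h2 : N.dim j = n) : move h1 (x i) = move h2 (x j) := by
  subst hij; rfl

/-- The coincidence relation as a setoid. -/
def eqvSetoid (P : N.Phase) : Setoid N.Node :=
  ⟨Eqv P, ⟨Eqv.refl P, fun h => h.symm, fun h h' => h.trans h'⟩⟩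

/-- Representative of a coincidence class. -/
noncomputable def rep (P : N.Phase) (c : N.Node) : N.Node :=
  Quotient.out (Quotient.mk (eqvSetoid P) c)

theorem rep_eqv (P : N.Phase) (c : N.Node) : Eqv P (rep P c) c :=
  Quotient.mk_out (s := eqvSetoid P) c

theorem rep_eq {P : N.Phase} {c d : N.Node} (h : Eqv P c d) : rep P c = rep P d := by
  unfold rep
  rw [Quotient.sound (s := eqvSetoid P) h]

theorem rep_dim (P : N.Phase) (c : N.Node) : N.dim (rep P c) = N.dim c :=
  (rep_eqv P c).choose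

/-- Retraction onto the coincidence subspace. -/
noncomputable def retr (P : N.Phase) : N.Phase →L[ℝ] N.Phase :=
  LinearMap.toContinuousLinearMap
    { toFun := fun x c => move (rep_dim P c) (x (rep P c))
      map_add' := fun _ _ => rfl
      map_smul' := fun _ _ => rfl }

theorem retr_apply (P x : N.Phase) (c : N.Node) :
    retr P x c = move (rep_dim P c) (x (rep P c)) := rfl

theorem norm_retr_le (P x : N.Phase) : ‖retr P x‖ ≤ ‖x‖ := by
  rw [pi_norm_le_iff_of_nonneg (norm_nonneg _)]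
  intro c
  rw [retr_apply, norm_move]
  exact norm_le_pi_norm x _

theorem retr_mem (P x : N.Phase) : retr P x ∈ synSpace P := by
  intro c d h hP
  rw [retr_apply, retr_apply, move_move]
  exact move_congr x (rep_eq ⟨h, hP⟩) _ _

theorem retr_of_mem {P x : N.Phase} (hx : x ∈ synSpace P) : retr P x = x := by
  funext c
  rw [retr_apply]
  obtain ⟨h, hh⟩ := rep_eqv P c
  exact hx _ _ h hh

theorem eqv_of_mem {P x : N.Phase} (hx : x ∈ synSpace P) {c d : N.Node} (h : Eqv P c d) :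
    Eqv x c d := by
  obtain ⟨h1, h2⟩ := h
  exact ⟨h1, hx c d h1 h2⟩

/-- The coincidence subspace of a balanced relation is invariant. -/
theorem Admissible.map_synSpace {g : N.Phase → N.Phase} (hg : N.Admissible g) {P : N.Phase}
    (hbal : N.Balanced (Eqv P)) {y : N.Phase} (hy : y ∈ synSpace P) : g y ∈ synSpace P := by
  intro c d h hP
  obtain ⟨β, hβ⟩ := hbal c d ⟨h, hP⟩
  have h1 : pull β (inputs y d) = inputs y c := by
    refine Prod.ext ?_ ?_
    · obtain ⟨h2, h3⟩ := (eqv_of_mem hy (⟨h, hP⟩ : Eqv P c d)).symm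
      exact h3
    · funext a
      obtain ⟨h2, h3⟩ := (eqv_of_mem hy (hβ a)).symm
      exact h3
  rw [hg.eq_of_match β h1]

namespace Ctx

variable {𝒢 : Set (N.Phase → N.Phase)} {T C : ℝ}
  {X : (N.Phase → N.Phase) → ℝ → N.Phase} {τ : (N.Phase → N.Phase) → ℝ}

theorem invariance (K : Ctx N 𝒢 T C X τ) {g₀ : N.Phase → N.Phase} (hg : g₀ ∈ 𝒢) {t₀ : ℝ}
    (hbal : N.Balanced (Eqv (X g₀ t₀))) (t : ℝ) : X g₀ t ∈ synSpace (X g₀ t₀) := by
  set P := X g₀ t₀ with hP
  have hadm := K.adm g₀ hg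
  -- bounds
  obtain ⟨R, hR⟩ : ∃ R : ℝ, ∀ t, ‖X g₀ t‖ ≤ R := by
    have hp : Function.Periodic (X g₀) T := K.per g₀ hg
    have h1 := hp.image_Icc K.T_pos 0
    have h2 : IsCompact (range (X g₀)) := by
      rw [← h1]
      exact isCompact_Icc.image (K.cont hg)
    obtain ⟨R, hR⟩ := h2.exists_bound_of_continuousOn continuousOn_id
    exact ⟨R, fun t => hR _ (mem_range_self t)⟩
  obtain ⟨L, hL⟩ := (hadm.contDiff.contDiffOn (s := Metric.closedBall 0 R)).exists_lipschitzOnWith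
    (by norm_num) (convex_closedBall _ _) (isCompact_closedBall _ _)
  set u : ℝ → N.Phase := fun t => X g₀ t - retr P (X g₀ t) with hu
  have hder : ∀ t, HasDerivAt u
      (τ g₀ • g₀ (X g₀ t) - retr P (τ g₀ • g₀ (X g₀ t))) t := by
    intro t
    have h1 := K.deriv g₀ hg t
    have h2 := (retr P).hasFDerivAt.comp_hasDerivAt t h1
    exact h1.sub h2
  have hbound : ∀ t, ‖τ g₀ • g₀ (X g₀ t) - retr P (τ g₀ • g₀ (X g₀ t))‖ ≤
      (τ g₀ * (2 * L)) * ‖u t‖ := by
    intro t
    have hτ := K.τ_pos g₀ hg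
    have h1 : retr P (g₀ (retr P (X g₀ t))) = g₀ (retr P (X g₀ t)) :=
      retr_of_mem (hadm.map_synSpace hbal (retr_mem P _))
    set D : N.Phase := g₀ (X g₀ t) - g₀ (retr P (X g₀ t)) with hD
    have h2 : τ g₀ • g₀ (X g₀ t) - retr P (τ g₀ • g₀ (X g₀ t)) = τ g₀ • (D - retr P D) := by
      rw [map_smul, ← smul_sub, hD, map_sub, h1]
      congr 1
      abel
    have h3 : ‖D‖ ≤ L * ‖u t‖ := by
      have h4 := hL.dist_le_mul (X g₀ t) (by rw [mem_closedBall_zero_iff]; exact hR t)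
        (retr P (X g₀ t)) (by
          rw [mem_closedBall_zero_iff]; exact (norm_retr_le _ _).trans (hR t))
      rwa [dist_eq_norm, dist_eq_norm] at h4
    rw [h2, norm_smul, Real.norm_eq_abs, abs_of_pos hτ, mul_assoc]
    refine mul_le_mul_of_nonneg_left ?_ hτ.le
    calc ‖D - retr P D‖ ≤ ‖D‖ + ‖retr P D‖ := norm_sub_le _ _
      _ ≤ ‖D‖ + ‖D‖ := by linarith [norm_retr_le P D]
      _ ≤ 2 * L * ‖u t‖ := by linarith
  have hu0 : u t₀ = 0 := by
    have h1 : retr P P = P := retr_of_mem (fun c d h hP' => hP')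
    show X g₀ t₀ - retr P (X g₀ t₀) = 0
    rw [← hP, h1, sub_self]
  have hpos : ∀ t, t₀ ≤ t → u t = 0 := by
    intro t ht
    refine eq_zero_of_abs_deriv_le_mul_abs_self_of_eq_zero_right (a := t₀) (b := t)
      (fun x _ => (hder x).continuousAt.continuousWithinAt)
      (fun x _ => (hder x).hasDerivWithinAt) hu0 (fun x _ => hbound x) t ⟨ht, le_rfl⟩
  have hall : ∀ t, u t = 0 := by
    intro t
    obtain ⟨n, hn⟩ := exists_nat_ge ((t₀ - t) / T)
    have h1 : t₀ ≤ t + n * T := by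
      rw [div_le_iff₀ K.T_pos] at hn
      linarith
    have h2 := hpos _ h1
    have hp : Function.Periodic (X g₀) T := K.per g₀ hg
    have h3 : X g₀ (t + n * T) = X g₀ t := hp.nat_mul n t
    have h4 : X g₀ (t + n * T) - retr P (X g₀ (t + n * T)) = 0 := h2
    rw [h3] at h4
    exact h4
  have h5 : X g₀ t = retr P (X g₀ t) := sub_eq_zero.1 (hall t)
  rw [h5]
  exact retr_mem P _

/-- **Key result.** There are a perturbed field and an orbit whose synchrony pattern is
balanced. -/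
theorem exists_balanced (K : Ctx N 𝒢 T C X τ) (hne : 𝒢.Nonempty) :
    ∃ g₀ ∈ 𝒢, N.Balanced (N.Synchronous (X g₀)) := by
  obtain ⟨g₀, hg, t₀, η, hη, hsel⟩ := selection 𝒢 hne X (fun g t => g (X g t))
  have hloc : LocConst 𝒢 X g₀ t₀ η := hsel
  have hcl : ∀ c, g₀ (X g₀ t₀) c = 0 → ∀ a : N.In c, g₀ (X g₀ t₀) (N.tail a.1) = 0 := by
    intro c hc a
    by_contra hcon
    exact (K.moving hg hη hloc (c := c) (j := N.tail a.1) (Or.inr ⟨a, rfl⟩) hcon).1 hc
  have hbal : N.Balanced (Eqv (X g₀ t₀)) := by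
    intro c d hcd
    by_cases hc : g₀ (X g₀ t₀) c = 0
    · obtain ⟨β, hβ⟩ := K.stationary hg hη hloc hcl hcd hc
      refine ⟨β, fun a => ?_⟩
      have h12 := congrFun (congrArg Prod.snd hβ) a
      exact Eqv.symm ⟨(β.dim_tail a).symm, h12⟩
    · exact (K.moving hg hη hloc (c := c) (j := c) (Or.inl rfl) hc).2 d hcd
  have hiff : ∀ c d, N.Synchronous (X g₀) c d ↔ Eqv (X g₀ t₀) c d := by
    intro c d
    constructor
    · rintro ⟨h, hh⟩
      exact ⟨h, hh t₀⟩
    · rintro ⟨h, hh⟩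
      exact ⟨h, fun t => K.invariance hg hbal t c d h hh⟩
  refine ⟨g₀, hg, fun c d hcd => ?_⟩
  obtain ⟨β, hβ⟩ := hbal c d ((hiff c d).1 hcd)
  exact ⟨β, fun a => (hiff _ _).2 (hβ a)⟩

end Ctx

end Network

end Pool.Agent.W5h40.RS
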