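import Mathlib

/-!
# Linear theory along a periodic orbit with simple multiplier one
-/

open Set Filter Topology MeasureTheory intervalIntegral

namespace Pool.Agent.W5h40.RS

variable {E : Type} [NormedAddCommGroup E] [NormedSpace ℝ E]

/-- Uniform strict differentiability of a `C^1` map along a compact set. -/
theorem uniform_strict {f : E → E} (hf : ContDiff ℝ 1 f) {K : Set E} (hK : IsCompact K)
    {η : ℝ} (hη : 0 < η) :
    ∃ ρ > 0, ∀ x ∈ K, ∀ u v : E, ‖u‖ ≤ ρ → ‖v‖ ≤ ρ →
      ‖f (x + u) - f (x + v) - fderiv ℝ f x (u - v)‖ ≤ η * ‖u - v‖ := by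
  have hcont : Continuous (fderiv ℝ f) := hf.continuous_fderiv (by norm_num)
  have hdiff : Differentiable ℝ f := hf.differentiable (by norm_num)
  have h1 := hK.uniformContinuousAt_of_continuousAt (fderiv ℝ f)
    (fun a _ => hcont.continuousAt) (Metric.dist_mem_uniformity hη)
  rw [Metric.mem_uniformity_dist] at h1
  obtain ⟨ρ, hρ, h2⟩ := h1
  refine ⟨ρ / 2, by positivity, fun x hx u v hu hv => ?_⟩
  have hbound : ∀ y ∈ Metric.ball x ρ, ‖fderiv ℝ f y - fderiv ℝ f x‖ ≤ η := by
    intro y hy
    have h3 : dist x y < ρ := by rw [dist_comm]; exact hy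
    have h4 := h2 h3 hx
    simp only [mem_ofPred_eq] at h4
    rw [← dist_eq_norm, dist_comm]
    exact h4.le
  have hxu : x + u ∈ Metric.ball x ρ := by
    simp only [Metric.mem_ball, dist_self_add_left]; linarith
  have hxv : x + v ∈ Metric.ball x ρ := by
    simp only [Metric.mem_ball, dist_self_add_left]; linarith
  have h5 := (convex_ball x ρ).norm_image_sub_le_of_norm_fderiv_le'
    (fun y _ => hdiff y) hbound hxv hxu
  simpa [add_sub_add_left_eq_sub] using h5

/-- The data of a `T`-periodic solution with a fundamental solution of the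
variational equation. -/
structure PData (f : E → E) (x : ℝ → E) (T : ℝ) (Φ : ℝ → E →L[ℝ] E) : Prop where
  smooth : ContDiff ℝ 1 f
  sol : ∀ t, HasDerivAt x (f (x t)) t
  pos : 0 < T
  per : ∀ t, x (t + T) = x t
  zero : Φ 0 = ContinuousLinearMap.id ℝ E
  deriv : ∀ t, HasDerivAt Φ ((fderiv ℝ f (x t)).comp (Φ t)) t

namespace PData

variable {f : E → E} {x : ℝ → E} {T : ℝ} {Φ : ℝ → E →L[ℝ] E}

theorem cont_x (h : PData f x T Φ) : Continuous x :=
  continuous_iff_continuousAt.2 fun t => (h.sol t).continuousAt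

theorem cont_Φ (h : PData f x T Φ) : Continuous Φ :=
  continuous_iff_continuousAt.2 fun t => (h.deriv t).continuousAt

theorem cont_A (h : PData f x T Φ) : Continuous (fun t => fderiv ℝ f (x t)) :=
  (h.smooth.continuous_fderiv (by norm_num)).comp h.cont_x

theorem range_x (h : PData f x T Φ) : range x = x '' Icc 0 T := by
  have hp : Function.Periodic x T := h.per
  have := hp.image_Icc h.pos 0
  rw [zero_add] at this
  exact this.symm

theorem compact_range (h : PData f x T Φ) : IsCompact (range x) := by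
  rw [h.range_x]
  exact isCompact_Icc.image h.cont_x

theorem bound_A (h : PData f x T Φ) : ∃ B : ℝ, 0 ≤ B ∧ ∀ t, ‖fderiv ℝ f (x t)‖ ≤ B := by
  have hc : Continuous (fderiv ℝ f) := h.smooth.continuous_fderiv (by norm_num)
  obtain ⟨B, hB⟩ := h.compact_range.exists_bound_of_continuousOn hc.continuousOn
  exact ⟨max B 0, le_max_right _ _, fun t => (hB _ (mem_range_self t)).trans (le_max_left _ _)⟩

/-- Solutions of the linear variational equation vanishing somewhere vanish. -/
theorem lin_zero (h : PData f x T Φ) {u : ℝ → E}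
    (hu : ∀ t, HasDerivAt u (fderiv ℝ f (x t) (u t)) t) {t₀ : ℝ} (h0 : u t₀ = 0) :
    ∀ t, u t = 0 := by
  obtain ⟨B, hB0, hB⟩ := h.bound_A
  have key : u = fun _ => (0 : E) := by
    apply ODE_solution_unique_univ (v := fun t y => fderiv ℝ f (x t) y)
      (s := fun _ => univ) (K := ⟨B, hB0⟩) (t₀ := t₀)
    · intro t
      apply LipschitzWith.lipschitzOnWith
      apply LipschitzWith.of_dist_le_mul
      intro y z
      rw [dist_eq_norm, dist_eq_norm, ← map_sub]
      exact (ContinuousLinearMap.le_opNorm _ _).trans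
        (mul_le_mul_of_nonneg_right (hB t) (norm_nonneg _))
    · intro t; exact ⟨hu t, mem_univ _⟩
    · intro t
      refine ⟨?_, mem_univ _⟩
      simpa using hasDerivAt_const t (0 : E)
    · exact h0
  intro t
  exact congrFun key t

theorem apply_deriv (h : PData f x T Φ) (v : E) (t : ℝ) :
    HasDerivAt (fun t => Φ t v) (fderiv ℝ f (x t) (Φ t v)) t := by
  have := (h.deriv t).clm_apply (hasDerivAt_const t v)
  simpa using this

theorem flow_deriv (h : PData f x T Φ) (t : ℝ) :
    HasDerivAt (fun t => f (x t)) (fderiv ℝ f (x t) (f (x t))) t := by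
  have h1 : HasFDerivAt f (fderiv ℝ f (x t)) (x t) :=
    (h.smooth.differentiable (by norm_num) (x t)).hasFDerivAt
  exact h1.comp_hasDerivAt t (h.sol t)

theorem Φ_flow (h : PData f x T Φ) (t : ℝ) : Φ t (f (x 0)) = f (x t) := by
  have h1 : ∀ t, HasDerivAt (fun t => Φ t (f (x 0)) - f (x t))
      (fderiv ℝ f (x t) (Φ t (f (x 0)) - f (x t))) t := by
    intro t
    have := (h.apply_deriv (f (x 0)) t).sub (h.flow_deriv t)
    rw [← map_sub] at this
    exact this
  have h2 := h.lin_zero h1 (t₀ := 0) (by simp [h.zero]) t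
  exact sub_eq_zero.1 h2

theorem Φ_inj (h : PData f x T Φ) (t : ℝ) : Function.Injective (Φ t) := by
  rw [injective_iff_map_eq_zero]
  intro v hv
  have := h.lin_zero (h.apply_deriv v) hv 0
  simpa [h.zero] using this

theorem Φ_unit [FiniteDimensional ℝ E] (h : PData f x T Φ) (t : ℝ) : IsUnit (Φ t) := by
  have : CompleteSpace E := FiniteDimensional.complete ℝ E
  rw [ContinuousLinearMap.isUnit_iff_bijective]
  refine ⟨h.Φ_inj t, ?_⟩
  have := LinearMap.injective_iff_surjective (f := (Φ t : E →ₗ[ℝ] E))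
  exact this.1 (h.Φ_inj t)

/-- The inverse of the fundamental solution. -/
noncomputable def Ψ (Φ : ℝ → E →L[ℝ] E) (t : ℝ) : E →L[ℝ] E := Ring.inverse (Φ t)

theorem Φ_Ψ [FiniteDimensional ℝ E] (h : PData f x T Φ) (t : ℝ) (v : E) :
    Φ t (Ψ Φ t v) = v := by
  have := Ring.mul_inverse_cancel _ (h.Φ_unit t)
  have h2 := congrArg (fun L : E →L[ℝ] E => L v) this
  simpa [Ψ] using h2

theorem cont_Ψ [FiniteDimensional ℝ E] (h : PData f x T Φ) : Continuous (Ψ Φ) := by
  have : CompleteSpace E := FiniteDimensional.complete ℝ E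
  rw [continuous_iff_continuousAt]
  intro t
  obtain ⟨u, hu⟩ := h.Φ_unit t
  have h1 : ContinuousAt (Ring.inverse : (E →L[ℝ] E) → (E →L[ℝ] E)) (Φ t) := by
    rw [← hu]
    exact NormedRing.inverse_continuousAt u
  exact h1.comp h.cont_Φ.continuousAt

end PData

end Pool.Agent.W5h40.RS
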