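import Pool.Agent.W5h40.RS.Bump

/-!
# Balance at moving nodes
-/

open Set Filter Topology MeasureTheory

namespace Pool.Agent.W5h40.RS

open Classical in
/-- Indicator of zero. -/
noncomputable def chi {V : Type} [Zero V] (b : V) : ℝ := if b = 0 then 1 else 0

theorem chi_zero {V : Type} [Zero V] : chi (0 : V) = 1 := by simp [chi]

theorem chi_ne {V : Type} [Zero V] {b : V} (h : b ≠ 0) : chi b = 0 := by simp [chi, h]

theorem chi_nonneg {V : Type} [Zero V] (b : V) : 0 ≤ chi b := by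
  unfold chi
  positivity

theorem bump_eventually {V : Type} [NormedAddCommGroup V] [NormedSpace ℝ V] {φ : V → ℝ}
    (h1 : ∀ z, ‖z‖ ≤ 1 / 2 → φ z = 1) (h0 : ∀ z, 1 ≤ ‖z‖ → φ z = 0)
    {w : ℕ → ℝ} (hw : ∀ n, 0 < w n) (hw0 : Tendsto w atTop (𝓝 0)) {u : ℕ → V}
    (hu : Tendsto u atTop (𝓝 0)) (b : V) :
    ∀ᶠ n in atTop, φ (u n + (w n)⁻¹ • b) = chi b := by
  have hu' : Tendsto (fun n => ‖u n‖) atTop (𝓝 0) := by simpa using hu.norm
  have hu1 : ∀ᶠ n in atTop, ‖u n‖ < 1 / 2 := hu'.eventually_lt_const (by norm_num)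
  by_cases hb : b = 0
  · filter_upwards [hu1] with n hn
    rw [hb, smul_zero, add_zero, chi_zero]
    exact h1 _ hn.le
  · have hinv : Tendsto (fun n => (w n)⁻¹) atTop atTop := by
      apply Tendsto.inv_tendsto_nhdsGT_zero
      rw [tendsto_nhdsWithin_iff]
      exact ⟨hw0, Eventually.of_forall hw⟩
    have hbpos : 0 < ‖b‖ := norm_pos_iff.2 hb
    have h2 : ∀ᶠ n in atTop, 2 / ‖b‖ ≤ (w n)⁻¹ := hinv.eventually_ge_atTop _
    filter_upwards [hu1, h2] with n hn hn2
    rw [chi_ne hb]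
    apply h0
    have h3 : 2 ≤ ‖(w n)⁻¹ • b‖ := by
      rw [norm_smul, norm_inv, Real.norm_eq_abs, abs_of_pos (hw n)]
      rwa [div_le_iff₀ hbpos] at hn2
    have h4 : ‖(w n)⁻¹ • b‖ ≤ ‖u n + (w n)⁻¹ • b‖ + ‖u n‖ := by
      have := norm_sub_le (u n + (w n)⁻¹ • b) (u n)
      simpa using this
    linarith

namespace Network

variable {N : Network}

theorem inputs_add (x y : N.Phase) (c : N.Node) : inputs (x + y) c = inputs x c + inputs y c := rfl

theorem inputs_smul (a : ℝ) (y : N.Phase) (c : N.Node) : inputs (a • y) c = a • inputs y c := rfl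

theorem pull_add {c d : N.Node} (β : N.InputIso c d) (y z : N.Inp d) :
    pull β (y + z) = pull β y + pull β z := rfl

theorem pull_smul {c d : N.Node} (β : N.InputIso c d) (a : ℝ) (z : N.Inp d) :
    pull β (a • z) = a • pull β z := rfl

/-- The property that coincidences and zero velocities are locally constant. -/
def LocConst (𝒢 : Set (N.Phase → N.Phase)) (X : (N.Phase → N.Phase) → ℝ → N.Phase)
    (g₀ : N.Phase → N.Phase) (t₀ η : ℝ) : Prop :=
  ∀ g ∈ 𝒢, ∀ t, ‖X g t - X g₀ t₀‖ < η → ‖g (X g t) - g₀ (X g₀ t₀)‖ < η →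
    (∀ c d, Eqv (X g t) c d ↔ Eqv (X g₀ t₀) c d) ∧
    (∀ c, g (X g t) c = 0 ↔ g₀ (X g₀ t₀) c = 0)

namespace Ctx

variable {𝒢 : Set (N.Phase → N.Phase)} {T C : ℝ}
  {X : (N.Phase → N.Phase) → ℝ → N.Phase} {τ : (N.Phase → N.Phase) → ℝ}

/-- If the orbit of `g` is close enough at time `t₁`, then coincident nodes have coincident
velocities. -/
theorem velocity_of_locConst (K : Ctx N 𝒢 T C X τ) {g₀ : N.Phase → N.Phase} {t₀ η : ℝ}
    (hloc : LocConst 𝒢 X g₀ t₀ η) {g : N.Phase → N.Phase} (hg : g ∈ 𝒢) {t₁ : ℝ}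
    (h1 : ‖X g t₁ - X g₀ t₀‖ < η) (h2 : ‖g (X g t₁) - g₀ (X g₀ t₀)‖ < η) {c d : N.Node}
    (h : N.dim c = N.dim d) (hE : Eqv (X g₀ t₀) c d) :
    move h (g (X g t₁) c) = g (X g t₁) d := by
  apply K.velocity_eq hg
  have e1 : ∀ᶠ t in 𝓝 t₁, ‖X g t - X g₀ t₀‖ < η :=
    ((K.cont hg).sub continuous_const).norm.continuousAt.eventually_lt_const h1
  have e2 : ∀ᶠ t in 𝓝 t₁, ‖g (X g t) - g₀ (X g₀ t₀)‖ < η :=
    ((K.contV hg).sub continuous_const).norm.continuousAt.eventually_lt_const h2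
  filter_upwards [e1, e2] with t ht1 ht2
  obtain ⟨_, h4⟩ := ((hloc g hg t ht1 ht2).1 c d).2 hE
  exact h4

theorem moving (K : Ctx N 𝒢 T C X τ) {g₀ : N.Phase → N.Phase} (hg : g₀ ∈ 𝒢) {t₀ η : ℝ}
    (hη : 0 < η) (hloc : LocConst 𝒢 X g₀ t₀ η) {c j : N.Node}
    (hj : j = c ∨ ∃ a : N.In c, j = N.tail a.1) (hV : g₀ (X g₀ t₀) j ≠ 0) :
    g₀ (X g₀ t₀) c ≠ 0 ∧ ∀ d, Eqv (X g₀ t₀) c d →
      ∃ β : N.InputIso c d, ∀ a : N.In c,
        Eqv (X g₀ t₀) (N.tail a.1) (N.tail (β.map a).1) := by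
  have hU : {t | ‖X g₀ t - X g₀ t₀‖ < η ∧ ‖g₀ (X g₀ t) - g₀ (X g₀ t₀)‖ < η} ∈ 𝓝 t₀ := by
    apply Filter.inter_mem
    · exact ((K.cont hg).sub continuous_const).norm.continuousAt.eventually_lt_const
        (by simpa using hη)
    · exact ((K.contV hg).sub continuous_const).norm.continuousAt.eventually_lt_const
        (by simpa using hη)
  obtain ⟨t₁, ⟨ht1, ht2⟩, hae⟩ := K.good_time hg hj hV hU
  obtain ⟨φ, L, hL, hφC, hφ01, hφ1, hφ0, hφL⟩ := exists_bump (N.Inp c)
  obtain ⟨κ, hκ, hroom⟩ := K.room g₀ hg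
  set P : N.Phase := X g₀ t₁ with hP
  set a : N.Inp c := inputs P c with ha
  have hcard := N.cardIso_nonneg
  have hA : 0 < N.cardIso * L + 1 := by positivity
  set ε : ℝ := κ / (N.cardIso * L + 1) with hε
  have hε0 : 0 < ε := by positivity
  have hεκ : ε * (N.cardIso * L) ≤ κ := by
    rw [hε, div_mul_eq_mul_div, div_le_iff₀ hA]
    nlinarith
  set w : ℕ → ℝ := fun n => 1 / ((n : ℝ) + 1) with hw
  have hwpos : ∀ n, 0 < w n := fun n => by positivity
  have hw1 : ∀ n, w n ≤ 1 := fun n => by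
    rw [hw]
    simp only
    rw [div_le_one (by positivity)]
    have : (0 : ℝ) ≤ n := Nat.cast_nonneg n
    linarith
  have hw0 : Tendsto w atTop (𝓝 0) := tendsto_one_div_add_atTop_nhds_zero_nat
  set p : ℕ → N.Phase → N.Phase := fun n x => ε • symV (bumpF c φ a (w n)) x with hp
  set g : ℕ → N.Phase → N.Phase := fun n x => g₀ x + p n x with hgdef
  have hpn : ∀ n x, ‖p n x‖ ≤ ε * (N.cardIso * w n) := by
    intro n x
    rw [hp]
    simp only
    rw [norm_smul, Real.norm_eq_abs, abs_of_pos hε0]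
    exact mul_le_mul_of_nonneg_left
      (symV_norm_le (hwpos n).le (fun c' y => bumpF_norm hφ01 (hwpos n).le c' y) x) hε0.le
  have hgn : ∀ n, g n ∈ 𝒢 := by
    intro n
    apply hroom (p n)
    · exact admissible_add (K.adm g₀ hg) (bumpF_contDiff hφC (w n)) ε
    · have h0 : ContDiff ℝ 1 (symV (bumpF c φ a (w n))) := symV_contDiff (bumpF_contDiff hφC _)
      exact h0.const_smul ε
    · intro x
      refine (hpn n x).trans (le_trans ?_ hεκ)
      exact mul_le_mul_of_nonneg_left (mul_le_mul_of_nonneg_left ((hw1 n).trans hL) hcard) hε0.le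
    · intro x y
      rw [hp]
      simp only
      rw [← smul_sub, norm_smul, Real.norm_eq_abs, abs_of_pos hε0]
      have h1 := symV_lip (by linarith : (0 : ℝ) ≤ L)
        (fun c' y z => bumpF_lip (a := a) hL hφL (hwpos n) c' y z) x y
      calc _ ≤ ε * (N.cardIso * (L * ‖x - y‖)) := mul_le_mul_of_nonneg_left h1 hε0.le
        _ = ε * (N.cardIso * L) * ‖x - y‖ := by ring
        _ ≤ κ * ‖x - y‖ := mul_le_mul_of_nonneg_right hεκ (norm_nonneg _)
  -- the displacement is small compared with the width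
  have hpcont : ∀ n, Continuous (p n) := by
    intro n
    have h0 : ContDiff ℝ 1 (symV (bumpF c φ a (w n))) := symV_contDiff (bumpF_contDiff hφC _)
    exact (h0.const_smul ε).continuous
  have hpeval : ∀ n x i, (w n)⁻¹ • p n x i =
      (ε * ∑ β : N.InputIso c i, φ ((w n)⁻¹ • (pull β (inputs x i) - a))) • ones (N.dim i) := by
    intro n x i
    have h1 : p n x i = ε • symV (bumpF c φ a (w n)) x i := rfl
    rw [h1, symV_bumpF, ← Finset.mul_sum, smul_smul, smul_smul]
    congr 1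
    have := (hwpos n).ne'
    field_simp
  have hint : Tendsto (fun n => ∫ s in (0 : ℝ)..T, (w n)⁻¹ * ‖p n (X g₀ s)‖) atTop (𝓝 0) := by
    suffices hsuf : Tendsto (fun n => ∫ s in (0 : ℝ)..T, (w n)⁻¹ * ‖p n (X g₀ s)‖) atTop
        (𝓝 (∫ _s in (0 : ℝ)..T, (0 : ℝ))) by simpa using hsuf
    apply intervalIntegral.tendsto_integral_filter_of_dominated_convergence
      (fun _ => ε * N.cardIso)
    · refine Eventually.of_forall fun n => ?_
      exact (continuous_const.mul ((hpcont n).comp (K.cont hg)).norm).aestronglyMeasurable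
    · refine Eventually.of_forall fun n => Eventually.of_forall fun s _ => ?_
      rw [Real.norm_eq_abs, abs_of_nonneg (mul_nonneg (inv_nonneg.2 (hwpos n).le)
        (norm_nonneg _))]
      calc (w n)⁻¹ * ‖p n (X g₀ s)‖ ≤ (w n)⁻¹ * (ε * (N.cardIso * w n)) :=
            mul_le_mul_of_nonneg_left (hpn n _) (inv_nonneg.2 (hwpos n).le)
        _ = ε * N.cardIso := by
            have := (hwpos n).ne'
            field_simp
    · exact continuous_const.intervalIntegrable _ _
    · rw [uIoc_of_le K.T_pos.le]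
      rw [ae_restrict_iff' measurableSet_Ioc] at hae
      filter_upwards [hae] with s hs hsT
      have hs' := hs hsT
      have h1 : ∀ᶠ n in atTop, ∀ (i : N.Node) (β : N.InputIso c i),
          φ ((w n)⁻¹ • (pull β (inputs (X g₀ s) i) - a)) = 0 := by
        rw [eventually_all]
        intro i
        rw [eventually_all]
        intro β
        have h2 := bump_eventually hφ1 hφ0 hwpos hw0 (u := fun _ => 0) tendsto_const_nhds
          (pull β (inputs (X g₀ s) i) - a)
        filter_upwards [h2] with n hn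
        rw [zero_add, chi_ne (sub_ne_zero.2 (hs' i β))] at hn
        exact hn
      have h3 : ∀ᶠ n in atTop, (w n)⁻¹ * ‖p n (X g₀ s)‖ = 0 := by
        filter_upwards [h1] with n hn
        have h4 : (w n)⁻¹ • p n (X g₀ s) = 0 := by
          funext i
          show (w n)⁻¹ • p n (X g₀ s) i = 0
          rw [hpeval, Finset.sum_eq_zero (fun β _ => hn i β), mul_zero, zero_smul]
        rw [← abs_of_pos (inv_pos.2 (hwpos n)), ← Real.norm_eq_abs, ← norm_smul, h4, norm_zero]
      exact tendsto_nhds_of_eventually_eq h3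
  set d : ℕ → N.Phase := fun n => X (g n) t₁ - P with hd
  have hdw : Tendsto (fun n => (w n)⁻¹ • d n) atTop (𝓝 0) := by
    apply squeeze_zero_norm (a := fun n => C * ∫ s in (0 : ℝ)..T, (w n)⁻¹ * ‖p n (X g₀ s)‖)
    · intro n
      rw [norm_smul, norm_inv, Real.norm_eq_abs, abs_of_pos (hwpos n),
        intervalIntegral.integral_const_mul]
      have h1 := K.dep g₀ hg (g n) (hgn n) t₁
      have h2 : (fun s => ‖g₀ (X g₀ s) - g n (X g₀ s)‖) = fun s => ‖p n (X g₀ s)‖ := by
        funext s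
        rw [hgdef]
        simp only [sub_add_cancel_left, norm_neg]
      rw [h2] at h1
      have h3 : ‖d n‖ ≤ C * ∫ s in (0 : ℝ)..T, ‖p n (X g₀ s)‖ := by
        rw [hd]
        simp only
        rw [norm_sub_rev]
        exact h1
      calc (w n)⁻¹ * ‖d n‖ ≤ (w n)⁻¹ * (C * ∫ s in (0 : ℝ)..T, ‖p n (X g₀ s)‖) :=
            mul_le_mul_of_nonneg_left h3 (inv_nonneg.2 (hwpos n).le)
        _ = _ := by ring
    · simpa using hint.const_mul C
  have hd0 : Tendsto d atTop (𝓝 0) := by
    have h1 := hw0.smul hdw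
    rw [zero_smul] at h1
    refine h1.congr fun n => ?_
    rw [smul_smul, mul_inv_cancel₀ (hwpos n).ne', one_smul]
  have hXn : ∀ n, X (g n) t₁ = P + d n := fun n => by
    rw [hd]; simp only; abel
  have hXlim : Tendsto (fun n => X (g n) t₁) atTop (𝓝 P) := by
    simp only [hXn]
    simpa using hd0.const_add P
  -- the difference quotient of velocities
  set cnt : N.Node → ℝ := fun i => ∑ β : N.InputIso c i,
    chi (pull β (inputs P i) - a) with hcnt
  have hQ : ∀ i, Tendsto (fun n => (w n)⁻¹ • (g n (X (g n) t₁) i - g₀ P i)) atTop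
      (𝓝 ((ε * cnt i) • ones (N.dim i))) := by
    intro i
    have h1 : HasFDerivWithinAt g₀ (fderiv ℝ g₀ P) univ P :=
      ((K.adm g₀ hg).contDiff.differentiable (by norm_num) P).hasFDerivAt.hasFDerivWithinAt
    have h2 := h1.lim hd0 (Eventually.of_forall fun _ => mem_univ _) hdw
    rw [map_zero] at h2
    have h3 : Tendsto (fun n => (w n)⁻¹ • (g₀ (P + d n) i - g₀ P i)) atTop (𝓝 0) :=
      (tendsto_pi_nhds.1 h2) i
    have h4 : ∀ᶠ n in atTop, (w n)⁻¹ • p n (X (g n) t₁) i = (ε * cnt i) • ones (N.dim i) := by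
      have h5 : ∀ᶠ n in atTop, ∀ β : N.InputIso c i,
          φ ((w n)⁻¹ • (pull β (inputs (X (g n) t₁) i) - a)) =
          chi (pull β (inputs P i) - a) := by
        rw [eventually_all]
        intro β
        have h6 : Tendsto (fun n => pull β (inputs ((w n)⁻¹ • d n) i)) atTop (𝓝 0) := by
          have h7 := (((pullL β).comp (inputsL i)).continuous.tendsto 0).comp hdw
          rw [map_zero] at h7
          exact h7
        have h8 := bump_eventually hφ1 hφ0 hwpos hw0 h6 (pull β (inputs P i) - a)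
        filter_upwards [h8] with n hn
        rw [← hn, hXn n, inputs_add, pull_add, inputs_smul, pull_smul, ← smul_add]
        congr 2
        abel
      filter_upwards [h5] with n hn
      rw [hpeval, Finset.sum_congr rfl (fun β _ => hn β)]
    have h9 : Tendsto (fun n => (w n)⁻¹ • p n (X (g n) t₁) i) atTop
        (𝓝 ((ε * cnt i) • ones (N.dim i))) := tendsto_nhds_of_eventually_eq h4
    have h10 := h3.add h9
    rw [zero_add] at h10
    refine h10.congr fun n => ?_
    rw [← smul_add]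
    congr 1
    have h11 : g n (X (g n) t₁) i = g₀ (X (g n) t₁) i + p n (X (g n) t₁) i := rfl
    rw [h11, hXn n]
    abel
  -- closeness at `t₁`
  have hglim : Tendsto (fun n => g n (X (g n) t₁)) atTop (𝓝 (g₀ P)) := by
    rw [tendsto_pi_nhds]
    intro i
    have h1 := hw0.smul (hQ i)
    rw [zero_smul] at h1
    have h2 := h1.add_const (g₀ P i)
    rw [zero_add] at h2
    refine h2.congr fun n => ?_
    rw [smul_smul, mul_inv_cancel₀ (hwpos n).ne', one_smul]
    abel
  have hc1 : ∀ᶠ n in atTop, ‖X (g n) t₁ - X g₀ t₀‖ < η := by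
    have := (hXlim.sub_const (X g₀ t₀)).norm
    exact this.eventually_lt_const ht1
  have hc2 : ∀ᶠ n in atTop, ‖g n (X (g n) t₁) - g₀ (X g₀ t₀)‖ < η := by
    have := (hglim.sub_const (g₀ (X g₀ t₀))).norm
    exact this.eventually_lt_const ht2
  have hcntc : 1 ≤ cnt c := by
    rw [hcnt]
    simp only
    have h1 : (fun β : N.InputIso c c =>
        chi (pull β (inputs P c) - a)) (InputIso.refl c) = 1 := by
      simp only
      rw [pull_refl, ha, sub_self, chi_zero]
    calc (1 : ℝ) = (fun β : N.InputIso c c =>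
        chi (pull β (inputs P c) - a)) (InputIso.refl c) := h1.symm
      _ ≤ _ := Finset.single_le_sum (f := fun β : N.InputIso c c =>
          chi (pull β (inputs P c) - a))
          (fun β _ => chi_nonneg _) (Finset.mem_univ _)
  have hlim0 := hloc g₀ hg t₁ ht1 ht2
  constructor
  · intro hc0
    have h1 : g₀ P c = 0 := (hlim0.2 c).2 hc0
    have h2 : ∀ᶠ n in atTop, (w n)⁻¹ • (g n (X (g n) t₁) c - g₀ P c) = 0 := by
      filter_upwards [hc1, hc2] with n hn1 hn2
      have h3 := ((hloc (g n) (hgn n) t₁ hn1 hn2).2 c).2 hc0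
      rw [h3, h1, sub_zero, smul_zero]
    have h4 : (ε * cnt c) • ones (N.dim c) = 0 :=
      tendsto_nhds_unique (hQ c) (tendsto_nhds_of_eventually_eq h2)
    have h5 := congrFun h4 ⟨0, N.dim_pos c⟩
    simp only [Pi.smul_apply, ones, smul_eq_mul, mul_one, Pi.zero_apply] at h5
    have h6 : 0 < ε * cnt c := by positivity
    exact h6.ne' h5
  · intro e hce
    obtain ⟨h, hh⟩ := (hlim0.1 c e).2 hce
    have h2 : ∀ᶠ n in atTop, move h ((w n)⁻¹ • (g n (X (g n) t₁) c - g₀ P c)) =
        (w n)⁻¹ • (g n (X (g n) t₁) e - g₀ P e) := by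
      filter_upwards [hc1, hc2] with n hn1 hn2
      have h3 := K.velocity_of_locConst hloc (hgn n) hn1 hn2 h hce
      have h4 := K.velocity_of_locConst hloc hg ht1 ht2 h hce
      rw [move_smul, move_sub, h3, h4]
    have h5 : Tendsto (fun n => move h ((w n)⁻¹ • (g n (X (g n) t₁) c - g₀ P c))) atTop
        (𝓝 (move h ((ε * cnt c) • ones (N.dim c)))) :=
      ((cont_move h).tendsto _).comp (hQ c)
    have h6 : move h ((ε * cnt c) • ones (N.dim c)) = (ε * cnt e) • ones (N.dim e) :=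
      tendsto_nhds_unique h5 ((hQ e).congr' (h2.mono fun n hn => hn.symm))
    have h7 := congrFun h6 ⟨0, N.dim_pos e⟩
    rw [move_smul, move_ones] at h7
    simp only [Pi.smul_apply, ones, smul_eq_mul, mul_one] at h7
    have h8 : cnt c = cnt e := mul_left_cancel₀ hε0.ne' h7
    have h9 : cnt e ≠ 0 := by rw [← h8]; positivity
    obtain ⟨β, -, hβ⟩ := Finset.exists_ne_zero_of_sum_ne_zero h9
    have h10 : pull β (inputs P e) - a = 0 := by
      by_contra hcon
      exact hβ (chi_ne hcon)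
    refine ⟨β, fun b => ?_⟩
    rw [← hlim0.1]
    have h11 : pull β (inputs P e) = inputs P c := sub_eq_zero.1 h10
    have h12 := congrFun (congrArg Prod.snd h11) b
    exact Eqv.symm ⟨(β.dim_tail b).symm, h12⟩

end Ctx

end Network

end Pool.Agent.W5h40.RS
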