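import Mathlib

/-!
# Networks, admissible vector fields, hyperbolic periodic orbits, rigid patterns
-/

namespace Pool.Agent.W5h40.RS

/-- A network: finitely many nodes and arrows, each arrow with a head and a tail node, a type
equivalence relation on nodes and one on arrows, such that arrows of equal type have heads of
equal type and tails of equal type. Node `c` is assigned the state space `ℝ ^ (dim c)` with
`dim c > 0`, and nodes of equal type have the same state space. -/
structure Network where
  Node : Type
  Arrow : Type
  [fintypeNode : Fintype Node]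
  [fintypeArrow : Fintype Arrow]
  nodeType : Setoid Node
  arrowType : Setoid Arrow
  head : Arrow → Node
  tail : Arrow → Node
  head_type : ∀ a b, arrowType.r a b → nodeType.r (head a) (head b)
  tail_type : ∀ a b, arrowType.r a b → nodeType.r (tail a) (tail b)
  dim : Node → ℕ
  dim_pos : ∀ c, 0 < dim c
  dim_type : ∀ c d, nodeType.r c d → dim c = dim d

attribute [instance] Network.fintypeNode Network.fintypeArrow

/-- The identification of `ℝ ^ m` with `ℝ ^ n` when `m = n`. -/
def move {m n : ℕ} (h : m = n) (v : Fin m → ℝ) : Fin n → ℝ := fun i => v (Fin.cast h.symm i)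

namespace Network

variable (N : Network)

/-- The arrows with head `c`. -/
def In (c : N.Node) : Type := {a : N.Arrow // N.head a = c}

instance (c : N.Node) : Finite (N.In c) := Subtype.finite

noncomputable instance (c : N.Node) : Fintype (N.In c) := Fintype.ofFinite _

/-- The state space of a node. -/
abbrev St (c : N.Node) : Type := Fin (N.dim c) → ℝ

/-- The phase space. -/
abbrev Phase : Type := (c : N.Node) → N.St c

/-- The input space of a node: its own state, and one state for each input arrow. -/
abbrev Inp (c : N.Node) : Type := N.St c × ((a : N.In c) → N.St (N.tail a.1))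

/-- An input isomorphism from `c` to `d`, for nodes `c`, `d` of equal type: a bijection of the
sets of input arrows which preserves arrow types. -/
structure InputIso (c d : N.Node) where
  node_type : N.nodeType.r c d
  map : N.In c ≃ N.In d
  arrow_type : ∀ a : N.In c, N.arrowType.r a.1 (map a).1

variable {N}

theorem InputIso.dim_eq {c d : N.Node} (β : N.InputIso c d) : N.dim c = N.dim d :=
  N.dim_type _ _ β.node_type

theorem InputIso.dim_tail {c d : N.Node} (β : N.InputIso c d) (a : N.In c) :
    N.dim (N.tail a.1) = N.dim (N.tail (β.map a).1) :=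
  N.dim_type _ _ (N.tail_type _ _ (β.arrow_type a))

/-- Relabelling of the input variables by an input isomorphism. -/
def pull {c d : N.Node} (β : N.InputIso c d) (y : N.Inp d) : N.Inp c :=
  (move β.dim_eq.symm y.1, fun a => move (β.dim_tail a).symm (y.2 (β.map a)))

/-- The inputs of node `c` at a point of phase space. -/
def inputs (x : N.Phase) (c : N.Node) : N.Inp c := (x c, fun a => x (N.tail a.1))

variable (N)

/-- Admissible `C^1` vector fields: the component `f_c` is a `C^1` function `F c` of the state
of `c` and of the states at the tails of the input arrows of `c`, and for every input isomorphism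
`β` from `c` to `d`, `F d` equals `F c` after relabelling the variables by `β`. -/
def Admissible (f : N.Phase → N.Phase) : Prop :=
  ∃ F : (c : N.Node) → N.Inp c → N.St c,
    (∀ c, ContDiff ℝ 1 (F c)) ∧
    (∀ (c d : N.Node) (β : N.InputIso c d) (y : N.Inp d),
      F d y = move β.dim_eq (F c (pull β y))) ∧
    ∀ (x : N.Phase) (c : N.Node), f x c = F c (inputs x c)

/-- The synchrony pattern of a trajectory: nodes `c` and `d` have the same state space and
`x_c(t) = x_d(t)` for all `t`. -/
def Synchronous (x : ℝ → N.Phase) (c d : N.Node) : Prop :=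
  ∃ h : N.dim c = N.dim d, ∀ t, move h (x t c) = x t d

/-- Balanced relations on the nodes. -/
def Balanced (R : N.Node → N.Node → Prop) : Prop :=
  ∀ c d, R c d → ∃ β : N.InputIso c d, ∀ a : N.In c, R (N.tail a.1) (N.tail (β.map a).1)

end Network

/-- `x` is a non-constant solution of `x' = f(x)` with period `T > 0`. -/
structure PeriodicOrbit {E : Type} [NormedAddCommGroup E] [NormedSpace ℝ E]
    (f : E → E) (x : ℝ → E) (T : ℝ) : Prop where
  solution : ∀ t, HasDerivAt x (f (x t)) t
  period_pos : 0 < T
  periodic : ∀ t, x (t + T) = x t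
  nonconstant : ∃ s t, x s ≠ x t

/-- The Floquet multipliers of the orbit (the complex eigenvalues, with algebraic
multiplicity, of the monodromy map `Φ T`, where `Φ` is the fundamental solution of the
variational equation) contain `1` with multiplicity one and no other number of modulus one. -/
def HyperbolicMultipliers {E : Type} [NormedAddCommGroup E] [NormedSpace ℝ E]
    [FiniteDimensional ℝ E] (f : E → E) (x : ℝ → E) (T : ℝ) : Prop :=
  ∃ Φ : ℝ → E →L[ℝ] E, Φ 0 = ContinuousLinearMap.id ℝ E ∧
    (∀ t, HasDerivAt Φ ((fderiv ℝ f (x t)).comp (Φ t)) t) ∧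
    (((Φ T : E →ₗ[ℝ] E).charpoly.map (algebraMap ℝ ℂ)).rootMultiplicity 1 = 1) ∧
    ∀ z : ℂ, ((Φ T : E →ₗ[ℝ] E).charpoly.map (algebraMap ℝ ℂ)).IsRoot z → ‖z‖ = 1 → z = 1

/-- `g` is within `δ` of `f` in the uniform `C^1` sense. -/
def C1Near {E : Type} [NormedAddCommGroup E] [NormedSpace ℝ E]
    (f g : E → E) (δ : ℝ) : Prop :=
  ∀ y, ‖g y - f y‖ ≤ δ ∧ ‖fderiv ℝ g y - fderiv ℝ f y‖ ≤ δ

/-- The synchrony pattern of the `T`-periodic orbit `x` of `f` is rigid: for some `ε, δ > 0`,
for every admissible `g` within `δ` of `f` in the uniform `C^1` sense, every periodic orbit `y`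
of `g` within `ε` of `x` (with period `T'` within `ε` of `T`, and `y` uniformly within `ε` of `x`
after rescaling time) has all the synchronies of `x`. -/
def Network.Rigid (N : Network) (f : N.Phase → N.Phase) (x : ℝ → N.Phase) (T : ℝ) : Prop :=
  ∃ ε > 0, ∃ δ > 0, ∀ g : N.Phase → N.Phase, N.Admissible g → C1Near f g δ →
    ∀ (y : ℝ → N.Phase) (T' : ℝ), PeriodicOrbit g y T' → |T' - T| < ε →
      (∀ t, ‖y (t * T' / T) - x t‖ < ε) →
      ∀ c d, N.Synchronous x c d → N.Synchronous y c d

end Pool.Agent.W5h40.RS
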