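import Pool.Agent.W5h40.RS.Net

/-!
# Basic lemmas on networks, and symmetrization
-/

open Set Filter Topology

namespace Pool.Agent.W5h40.RS

theorem move_rfl {m : ℕ} (h : m = m) (v : Fin m → ℝ) : move h v = v := rfl

theorem move_move {m n k : ℕ} (h : m = n) (h' : n = k) (v : Fin m → ℝ) :
    move h' (move h v) = move (h.trans h') v := by subst h; subst h'; rfl

theorem move_add {m n : ℕ} (h : m = n) (v w : Fin m → ℝ) :
    move h (v + w) = move h v + move h w := rfl

theorem move_sub {m n : ℕ} (h : m = n) (v w : Fin m → ℝ) :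
    move h (v - w) = move h v - move h w := rfl

theorem move_smul {m n : ℕ} (h : m = n) (a : ℝ) (v : Fin m → ℝ) :
    move h (a • v) = a • move h v := rfl

theorem move_zero {m n : ℕ} (h : m = n) : move h (0 : Fin m → ℝ) = 0 := rfl

theorem norm_move {m n : ℕ} (h : m = n) (v : Fin m → ℝ) : ‖move h v‖ = ‖v‖ := by
  subst h; rfl

theorem move_inj {m n : ℕ} (h : m = n) {v w : Fin m → ℝ} (hvw : move h v = move h w) : v = w := by
  subst h; exact hvw

theorem move_sum {m n : ℕ} (h : m = n) {ι : Type*} (s : Finset ι) (v : ι → Fin m → ℝ) :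
    move h (∑ i ∈ s, v i) = ∑ i ∈ s, move h (v i) := by
  subst h; rfl

/-- `move` as a continuous linear map. -/
noncomputable def moveL {m n : ℕ} (h : m = n) : (Fin m → ℝ) →L[ℝ] (Fin n → ℝ) :=
  LinearMap.toContinuousLinearMap
    { toFun := move h
      map_add' := fun v w => move_add h v w
      map_smul' := fun a v => move_smul h a v }

theorem moveL_apply {m n : ℕ} (h : m = n) (v : Fin m → ℝ) : moveL h v = move h v := rfl

namespace Network

variable {N : Network}

namespace InputIso

theorem ext' {c d : N.Node} {β γ : N.InputIso c d} (h : ∀ a, β.map a = γ.map a) : β = γ := by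
  cases β; cases γ
  congr 1
  exact Equiv.ext h

/-- The identity input isomorphism. -/
def refl (c : N.Node) : N.InputIso c c :=
  ⟨N.nodeType.iseqv.refl c, Equiv.refl _, fun a => N.arrowType.iseqv.refl a.1⟩

/-- The inverse input isomorphism. -/
def symm {c d : N.Node} (β : N.InputIso c d) : N.InputIso d c :=
  ⟨N.nodeType.iseqv.symm β.node_type, β.map.symm, fun a => by
    have := β.arrow_type (β.map.symm a)
    rw [Equiv.apply_symm_apply] at this
    exact N.arrowType.iseqv.symm this⟩

/-- Composition of input isomorphisms. -/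
def comp {c d e : N.Node} (β : N.InputIso c d) (γ : N.InputIso d e) : N.InputIso c e :=
  ⟨N.nodeType.iseqv.trans β.node_type γ.node_type, β.map.trans γ.map, fun a =>
    N.arrowType.iseqv.trans (β.arrow_type a) (γ.arrow_type (β.map a))⟩

instance (c d : N.Node) : Finite (N.InputIso c d) := by
  apply Finite.of_injective (fun β : N.InputIso c d => (β.map : N.In c → N.In d))
  intro β γ h
  exact ext' (fun a => congrFun h a)

noncomputable instance (c d : N.Node) : Fintype (N.InputIso c d) := Fintype.ofFinite _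

/-- Composition with a fixed input isomorphism is a bijection. -/
def compEquiv (c : N.Node) {i j : N.Node} (γ : N.InputIso i j) :
    N.InputIso c i ≃ N.InputIso c j where
  toFun β := β.comp γ
  invFun β := β.comp γ.symm
  left_inv β := ext' (fun a => by simp [comp, symm])
  right_inv β := ext' (fun a => by simp [comp, symm])

end InputIso

theorem pull_refl {c : N.Node} (y : N.Inp c) : pull (InputIso.refl c) y = y := rfl

theorem pull_pull {c d e : N.Node} (β : N.InputIso c d) (γ : N.InputIso d e) (y : N.Inp e) :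
    pull β (pull γ y) = pull (β.comp γ) y := by
  unfold pull
  refine Prod.ext ?_ ?_
  · simp only [move_move]
  · funext a
    simp only [move_move, InputIso.comp, Equiv.trans_apply]

theorem pull_sub {c d : N.Node} (β : N.InputIso c d) (y z : N.Inp d) :
    pull β y - pull β z = pull β (y - z) := rfl

theorem norm_pull_le {c d : N.Node} (β : N.InputIso c d) (y : N.Inp d) : ‖pull β y‖ ≤ ‖y‖ := by
  rw [Prod.norm_def]
  apply max_le
  · simp only [pull, norm_move]
    exact norm_fst_le y
  · rw [pi_norm_le_iff_of_nonneg (norm_nonneg _)]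
    intro a
    simp only [pull, norm_move]
    exact (norm_le_pi_norm y.2 (β.map a)).trans (norm_snd_le y)

theorem norm_inputs_le (x : N.Phase) (c : N.Node) : ‖inputs x c‖ ≤ ‖x‖ := by
  rw [Prod.norm_def]
  apply max_le
  · exact norm_le_pi_norm x c
  · rw [pi_norm_le_iff_of_nonneg (norm_nonneg _)]
    intro a
    exact norm_le_pi_norm x _

theorem inputs_sub (x y : N.Phase) (c : N.Node) : inputs x c - inputs y c = inputs (x - y) c := rfl

/-- Relabelling as a continuous linear map. -/
noncomputable def pullL {c d : N.Node} (β : N.InputIso c d) : N.Inp d →L[ℝ] N.Inp c :=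
  LinearMap.toContinuousLinearMap
    { toFun := pull β
      map_add' := fun _ _ => rfl
      map_smul' := fun _ _ => rfl }

/-- Inputs as a continuous linear map. -/
noncomputable def inputsL (c : N.Node) : N.Phase →L[ℝ] N.Inp c :=
  LinearMap.toContinuousLinearMap
    { toFun := fun x => inputs x c
      map_add' := fun _ _ => rfl
      map_smul' := fun _ _ => rfl }

/-- Symmetrization of a family of maps. -/
noncomputable def symF (ψ : (c : N.Node) → N.Inp c → N.St c) (i : N.Node) (y : N.Inp i) : N.St i :=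
  ∑ c : N.Node, ∑ β : N.InputIso c i, move β.dim_eq (ψ c (pull β y))

theorem symF_equivariant (ψ : (c : N.Node) → N.Inp c → N.St c) {i j : N.Node}
    (γ : N.InputIso i j) (y : N.Inp j) :
    symF ψ j y = move γ.dim_eq (symF ψ i (pull γ y)) := by
  unfold symF
  rw [move_sum]
  refine Finset.sum_congr rfl fun c _ => ?_
  rw [move_sum, ← (InputIso.compEquiv c γ).sum_comp]
  refine Finset.sum_congr rfl fun β _ => ?_
  rw [pull_pull, move_move]
  rfl

/-- The vector field obtained by symmetrization. -/
noncomputable def symV (ψ : (c : N.Node) → N.Inp c → N.St c) (x : N.Phase) : N.Phase :=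
  fun i => symF ψ i (inputs x i)

theorem symF_contDiff {ψ : (c : N.Node) → N.Inp c → N.St c} (hψ : ∀ c, ContDiff ℝ 1 (ψ c))
    (i : N.Node) : ContDiff ℝ 1 (symF ψ i) := by
  unfold symF
  refine ContDiff.sum fun c _ => ContDiff.sum fun β _ => ?_
  exact (moveL β.dim_eq).contDiff.comp ((hψ c).comp (pullL β).contDiff)

theorem symV_contDiff {ψ : (c : N.Node) → N.Inp c → N.St c} (hψ : ∀ c, ContDiff ℝ 1 (ψ c)) :
    ContDiff ℝ 1 (symV ψ) := by
  rw [contDiff_pi]
  intro i
  exact (symF_contDiff hψ i).comp (inputsL i).contDiff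

/-- The number of input isomorphisms ending at some node. -/
noncomputable def cardIso (N : Network) : ℝ :=
  ∑ i : N.Node, ∑ c : N.Node, (Fintype.card (N.InputIso c i) : ℝ)

theorem cardIso_nonneg (N : Network) : 0 ≤ N.cardIso :=
  Finset.sum_nonneg fun _ _ => Finset.sum_nonneg fun _ _ => Nat.cast_nonneg _

theorem symF_norm_le {ψ : (c : N.Node) → N.Inp c → N.St c} {K : ℝ} (hK : 0 ≤ K)
    (hψ : ∀ c y, ‖ψ c y‖ ≤ K) (i : N.Node) (y : N.Inp i) : ‖symF ψ i y‖ ≤ N.cardIso * K := by
  have h1 : ‖symF ψ i y‖ ≤ (∑ c : N.Node, (Fintype.card (N.InputIso c i) : ℝ)) * K := by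
    unfold symF
    rw [Finset.sum_mul]
    refine norm_sum_le_of_le _ fun c _ => ?_
    calc ‖∑ β : N.InputIso c i, move β.dim_eq (ψ c (pull β y))‖ ≤
        ∑ _β : N.InputIso c i, K := norm_sum_le_of_le _ fun β _ => by
          rw [norm_move]; exact hψ _ _
      _ = _ := by simp
  refine h1.trans (mul_le_mul_of_nonneg_right ?_ hK)
  unfold cardIso
  exact Finset.single_le_sum
    (f := fun i : N.Node => ∑ c : N.Node, (Fintype.card (N.InputIso c i) : ℝ))
    (fun _ _ => Finset.sum_nonneg fun _ _ => Nat.cast_nonneg _) (Finset.mem_univ i)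

theorem symF_lip {ψ : (c : N.Node) → N.Inp c → N.St c} {K : ℝ} (hK : 0 ≤ K)
    (hψ : ∀ c y z, ‖ψ c y - ψ c z‖ ≤ K * ‖y - z‖) (i : N.Node) (y z : N.Inp i) :
    ‖symF ψ i y - symF ψ i z‖ ≤ N.cardIso * (K * ‖y - z‖) := by
  have hK' : 0 ≤ K * ‖y - z‖ := mul_nonneg hK (norm_nonneg _)
  have h1 : ‖symF ψ i y - symF ψ i z‖ ≤
      (∑ c : N.Node, (Fintype.card (N.InputIso c i) : ℝ)) * (K * ‖y - z‖) := by
    unfold symF
    rw [Finset.sum_mul, ← Finset.sum_sub_distrib]
    refine norm_sum_le_of_le _ fun c _ => ?_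
    rw [← Finset.sum_sub_distrib]
    calc ‖∑ β : N.InputIso c i, (move β.dim_eq (ψ c (pull β y)) -
          move β.dim_eq (ψ c (pull β z)))‖ ≤
        ∑ _β : N.InputIso c i, K * ‖y - z‖ := norm_sum_le_of_le _ fun β _ => by
          rw [← move_sub, norm_move]
          refine (hψ _ _ _).trans (mul_le_mul_of_nonneg_left ?_ hK)
          rw [pull_sub]
          exact norm_pull_le _ _
      _ = _ := by simp
  refine h1.trans (mul_le_mul_of_nonneg_right ?_ hK')
  unfold cardIso
  exact Finset.single_le_sum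
    (f := fun i : N.Node => ∑ c : N.Node, (Fintype.card (N.InputIso c i) : ℝ))
    (fun _ _ => Finset.sum_nonneg fun _ _ => Nat.cast_nonneg _) (Finset.mem_univ i)

theorem symV_norm_le {ψ : (c : N.Node) → N.Inp c → N.St c} {K : ℝ} (hK : 0 ≤ K)
    (hψ : ∀ c y, ‖ψ c y‖ ≤ K) (x : N.Phase) : ‖symV ψ x‖ ≤ N.cardIso * K := by
  rw [pi_norm_le_iff_of_nonneg (mul_nonneg N.cardIso_nonneg hK)]
  intro i
  exact symF_norm_le hK hψ i _

theorem symV_lip {ψ : (c : N.Node) → N.Inp c → N.St c} {K : ℝ} (hK : 0 ≤ K)
    (hψ : ∀ c y z, ‖ψ c y - ψ c z‖ ≤ K * ‖y - z‖) (x y : N.Phase) :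
    ‖symV ψ x - symV ψ y‖ ≤ N.cardIso * (K * ‖x - y‖) := by
  rw [pi_norm_le_iff_of_nonneg
    (mul_nonneg N.cardIso_nonneg (mul_nonneg hK (norm_nonneg _)))]
  intro i
  refine (symF_lip hK hψ i _ _).trans (mul_le_mul_of_nonneg_left
    (mul_le_mul_of_nonneg_left ?_ hK) N.cardIso_nonneg)
  rw [inputs_sub]
  exact norm_inputs_le _ _

/-- Adding a multiple of a symmetrization to an admissible field gives an admissible field. -/
theorem admissible_add {g : N.Phase → N.Phase} (hg : N.Admissible g)
    {ψ : (c : N.Node) → N.Inp c → N.St c} (hψ : ∀ c, ContDiff ℝ 1 (ψ c)) (s : ℝ) :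
    N.Admissible (fun x => g x + s • symV ψ x) := by
  obtain ⟨F, h1, h2, h3⟩ := hg
  refine ⟨fun c y => F c y + s • symF ψ c y, fun c => ?_, fun c d β y => ?_, fun x c => ?_⟩
  · have h4 : ContDiff ℝ 1 (F c + s • symF ψ c) := (h1 c).add ((symF_contDiff hψ c).const_smul s)
    exact h4
  · rw [move_add, move_smul, ← h2 c d β y, ← symF_equivariant ψ β y]
  · show g x c + s • symF ψ c (inputs x c) = _
    rw [h3]

theorem Admissible.contDiff {g : N.Phase → N.Phase} (hg : N.Admissible g) : ContDiff ℝ 1 g := by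
  obtain ⟨F, h1, -, h3⟩ := hg
  rw [contDiff_pi]
  intro c
  have : (fun x => g x c) = fun x => F c (inputs x c) := by
    funext x; exact h3 x c
  rw [this]
  exact (h1 c).comp (inputsL c).contDiff

/-- Admissible fields respect balanced coincidences of inputs. -/
theorem Admissible.eq_of_match {g : N.Phase → N.Phase} (hg : N.Admissible g) {x : N.Phase}
    {c d : N.Node} (β : N.InputIso c d) (h : pull β (inputs x d) = inputs x c) :
    g x d = move β.dim_eq (g x c) := by
  obtain ⟨F, -, h2, h3⟩ := hg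
  rw [h3, h3, h2 c d β, h]

/-- The component `g_c` only depends on the inputs of `c`. -/
theorem Admissible.eq_of_inputs {g : N.Phase → N.Phase} (hg : N.Admissible g) {x y : N.Phase}
    {c : N.Node} (h : inputs x c = inputs y c) : g x c = g y c := by
  obtain ⟨F, -, h2, h3⟩ := hg
  rw [h3, h3, h]

end Network

end Pool.Agent.W5h40.RS
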