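import Pool.Agent.W5h40.RS.Lin

/-!
# The solution operator of the periodic linear problem
-/

open Set Filter Topology MeasureTheory intervalIntegral

namespace Pool.Agent.W5h40.RS

variable {E : Type} [NormedAddCommGroup E] [NormedSpace ℝ E] [FiniteDimensional ℝ E]

/-- The bordered monodromy map. -/
noncomputable def bordered (M : E →L[ℝ] E) (c : E) : (E × ℝ) →ₗ[ℝ] E where
  toFun p := M p.1 - p.1 + p.2 • c
  map_add' p q := by
    simp only [Prod.fst_add, Prod.snd_add, map_add, add_smul]; abel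
  map_smul' a p := by
    simp only [Prod.smul_fst, Prod.smul_snd, map_smul, RingHom.id_apply, smul_eq_mul,
      smul_add, smul_sub, mul_smul]

namespace PData

variable {f : E → E} {x : ℝ → E} {T : ℝ} {Φ : ℝ → E →L[ℝ] E}

/-- The integrated forcing. -/
noncomputable def J (Φ : ℝ → E →L[ℝ] E) (r : ℝ → E) (t : ℝ) : E :=
  ∫ s in (0 : ℝ)..t, Ψ Φ s (r s)

/-- The parameters of the periodic solution. -/
noncomputable def par (Φ : ℝ → E →L[ℝ] E) (T : ℝ) (Λ : E →L[ℝ] E × ℝ) (r : ℝ → E) : E × ℝ :=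
  Λ (-(Φ T (J Φ r T)))

/-- The periodic solution. -/
noncomputable def U (Φ : ℝ → E →L[ℝ] E) (T : ℝ) (Λ : E →L[ℝ] E × ℝ) (e : E)
    (r : ℝ → E) (t : ℝ) : E :=
  Φ t ((par Φ T Λ r).1 + ((par Φ T Λ r).2 * t) • e + J Φ r t)

theorem J_deriv (h : PData f x T Φ) {r : ℝ → E} (hr : Continuous r) (t : ℝ) :
    HasDerivAt (J Φ r) (Ψ Φ t (r t)) t := by
  have hc : Continuous (fun s => Ψ Φ s (r s)) := h.cont_Ψ.clm_apply hr
  exact (hc.integral_hasStrictDerivAt 0 t).hasDerivAt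

theorem U_deriv (h : PData f x T Φ) (Λ : E →L[ℝ] E × ℝ) {r : ℝ → E} (hr : Continuous r) (t : ℝ) :
    HasDerivAt (U Φ T Λ (f (x 0)) r)
      (fderiv ℝ f (x t) (U Φ T Λ (f (x 0)) r t) + (par Φ T Λ r).2 • f (x t) + r t) t := by
  set p := par Φ T Λ r with hp
  have h1 : HasDerivAt (fun t : ℝ => p.1 + (p.2 * t) • f (x 0) + J Φ r t)
      (p.2 • f (x 0) + Ψ Φ t (r t)) t := by
    have h2 : HasDerivAt (fun t : ℝ => p.1 + (p.2 * t) • f (x 0)) (p.2 • f (x 0)) t := by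
      have h3 : HasDerivAt (fun t : ℝ => p.2 * t) p.2 t := by
        simpa using (hasDerivAt_id t).const_mul p.2
      exact (h3.smul_const (f (x 0))).const_add p.1
    exact h2.add (h.J_deriv hr t)
  have h4 := (h.deriv t).clm_apply h1
  have h5 : Φ t (p.2 • f (x 0) + Ψ Φ t (r t)) = p.2 • f (x t) + r t := by
    rw [map_add, map_smul, h.Φ_flow, h.Φ_Ψ]
  rw [h5] at h4
  have h6 : HasDerivAt (U Φ T Λ (f (x 0)) r) ((fderiv ℝ f (x t)).comp (Φ t)
      (p.1 + (p.2 * t) • f (x 0) + J Φ r t) + (p.2 • f (x t) + r t)) t := h4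
  refine h6.congr_deriv ?_
  rw [ContinuousLinearMap.comp_apply, add_assoc (fderiv ℝ f (x t) _) (p.2 • f (x t)) (r t)]
  rfl

theorem U_periodic (h : PData f x T Φ) {Λ : E →L[ℝ] E × ℝ}
    (hΛ : ∀ v, bordered (Φ T) (T • f (x 0)) (Λ v) = v) {r : ℝ → E} (hr : Continuous r)
    (hrT : ∀ t, r (t + T) = r t) (t : ℝ) :
    U Φ T Λ (f (x 0)) r (t + T) = U Φ T Λ (f (x 0)) r t := by
  set u := U Φ T Λ (f (x 0)) r with hu
  have h0 : u (0 + T) - u 0 = 0 := by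
    have h1 : u 0 = (par Φ T Λ r).1 := by
      simp [hu, U, h.zero, J]
    have h2 : u T = Φ T (par Φ T Λ r).1 + ((par Φ T Λ r).2) • T • f (x 0)
        + Φ T (J Φ r T) := by
      have h3 : f (x T) = f (x 0) := by
        have := h.per 0
        rw [zero_add] at this
        rw [this]
      simp only [hu, U, map_add, map_smul, h.Φ_flow, h3, smul_smul]
    have h4 := hΛ (-(Φ T (J Φ r T)))
    have h5 : (par Φ T Λ r) = Λ (-(Φ T (J Φ r T))) := rfl
    rw [← h5] at h4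
    have h6 : Φ T (par Φ T Λ r).1 - (par Φ T Λ r).1 + (par Φ T Λ r).2 • T • f (x 0) =
        -(Φ T (J Φ r T)) := h4
    rw [zero_add, h1, h2]
    have h7 : Φ T (par Φ T Λ r).1 + (par Φ T Λ r).2 • T • f (x 0) + Φ T (J Φ r T) -
        (par Φ T Λ r).1 = (Φ T (par Φ T Λ r).1 - (par Φ T Λ r).1 +
          (par Φ T Λ r).2 • T • f (x 0)) + Φ T (J Φ r T) := by abel
    rw [h7, h6]; simp
  have h1 : ∀ t, HasDerivAt (fun t => u (t + T) - u t)
      (fderiv ℝ f (x t) (u (t + T) - u t)) t := by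
    intro t
    have h2 : HasDerivAt (fun t => u (t + T)) (fderiv ℝ f (x (t + T)) (u (t + T)) +
        (par Φ T Λ r).2 • f (x (t + T)) + r (t + T)) t :=
      (h.U_deriv Λ hr (t + T)).comp_add_const t T
    rw [h.per, hrT] at h2
    have h3 := h2.fun_sub (h.U_deriv Λ hr t)
    refine h3.congr_deriv ?_
    rw [map_sub]
    abel
  have h2 := h.lin_zero h1 (t₀ := 0) h0 t
  exact sub_eq_zero.1 h2

/-- Bounds for the fundamental solution and its inverse on one period. -/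
theorem bounds (h : PData f x T Φ) : ∃ B : ℝ, 0 < B ∧ ∀ t ∈ Icc 0 T, ‖Φ t‖ ≤ B ∧ ‖Ψ Φ t‖ ≤ B := by
  obtain ⟨B1, h1⟩ := isCompact_Icc.exists_bound_of_continuousOn
    (h.cont_Φ.continuousOn (s := Icc 0 T))
  obtain ⟨B2, h2⟩ := isCompact_Icc.exists_bound_of_continuousOn
    (h.cont_Ψ.continuousOn (s := Icc 0 T))
  refine ⟨max (max B1 B2) 1, lt_max_of_lt_right one_pos, fun t ht => ⟨?_, ?_⟩⟩
  · exact (h1 t ht).trans ((le_max_left _ _).trans (le_max_left _ _))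
  · exact (h2 t ht).trans ((le_max_right _ _).trans (le_max_left _ _))

theorem J_sub (h : PData f x T Φ) {r s : ℝ → E} (hr : Continuous r) (hs : Continuous s) (t : ℝ) :
    J Φ r t - J Φ s t = ∫ a in (0 : ℝ)..t, Ψ Φ a (r a - s a) := by
  rw [J, J, ← intervalIntegral.integral_sub]
  · simp only [map_sub]
  · exact (h.cont_Ψ.clm_apply hr).intervalIntegrable _ _
  · exact (h.cont_Ψ.clm_apply hs).intervalIntegrable _ _

theorem J_bound (h : PData f x T Φ) {B : ℝ} (hB : 0 < B)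
    (hb : ∀ t ∈ Icc 0 T, ‖Φ t‖ ≤ B ∧ ‖Ψ Φ t‖ ≤ B) {r s : ℝ → E} (hr : Continuous r)
    (hs : Continuous s) {t : ℝ} (ht : t ∈ Icc 0 T) :
    ‖J Φ r t - J Φ s t‖ ≤ B * ∫ a in (0 : ℝ)..T, ‖r a - s a‖ := by
  have hc : Continuous (fun a => ‖r a - s a‖) := (hr.sub hs).norm
  rw [h.J_sub hr hs]
  calc ‖∫ a in (0 : ℝ)..t, Ψ Φ a (r a - s a)‖ ≤ ∫ a in (0 : ℝ)..t, ‖Ψ Φ a (r a - s a)‖ :=
        norm_integral_le_integral_norm ht.1
    _ ≤ ∫ a in (0 : ℝ)..t, B * ‖r a - s a‖ := by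
        apply integral_mono_on ht.1
        · exact ((h.cont_Ψ.clm_apply (hr.sub hs)).norm).intervalIntegrable _ _
        · exact (continuous_const.mul hc).intervalIntegrable _ _
        · intro a ha
          exact (ContinuousLinearMap.le_opNorm _ _).trans
            (mul_le_mul_of_nonneg_right (hb a ⟨ha.1, ha.2.trans ht.2⟩).2 (norm_nonneg _))
    _ ≤ ∫ a in (0 : ℝ)..T, B * ‖r a - s a‖ := by
        apply integral_mono_interval le_rfl ht.1 ht.2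
        · apply Eventually.of_forall
          intro a
          exact mul_nonneg hB.le (norm_nonneg _)
        · exact (continuous_const.mul hc).intervalIntegrable _ _
    _ = B * ∫ a in (0 : ℝ)..T, ‖r a - s a‖ := intervalIntegral.integral_const_mul _ _

theorem par_bound (h : PData f x T Φ) (Λ : E →L[ℝ] E × ℝ) {B : ℝ} (hB : 0 < B)
    (hb : ∀ t ∈ Icc 0 T, ‖Φ t‖ ≤ B ∧ ‖Ψ Φ t‖ ≤ B) {r s : ℝ → E} (hr : Continuous r)
    (hs : Continuous s) :
    ‖par Φ T Λ r - par Φ T Λ s‖ ≤ ‖Λ‖ * (B * (B * ∫ a in (0 : ℝ)..T, ‖r a - s a‖)) := by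
  have hT : T ∈ Icc 0 T := ⟨h.pos.le, le_rfl⟩
  have h1 := h.J_bound hB hb hr hs hT
  rw [par, par, ← map_sub]
  refine (ContinuousLinearMap.le_opNorm _ _).trans (mul_le_mul_of_nonneg_left ?_ (norm_nonneg _))
  have h2 : -(Φ T) (J Φ r T) - -(Φ T) (J Φ s T) = -(Φ T (J Φ r T - J Φ s T)) := by
    rw [map_sub]; abel
  rw [h2, norm_neg]
  exact (ContinuousLinearMap.le_opNorm _ _).trans
    (mul_le_mul (hb T hT).1 h1 (norm_nonneg _) hB.le)

theorem U_bound (h : PData f x T Φ) (Λ : E →L[ℝ] E × ℝ) : ∃ C : ℝ, 0 < C ∧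
    ∀ r s : ℝ → E, Continuous r → Continuous s → (∀ t ∈ Icc 0 T,
      ‖U Φ T Λ (f (x 0)) r t - U Φ T Λ (f (x 0)) s t‖ ≤ C * ∫ a in (0 : ℝ)..T, ‖r a - s a‖) ∧
      |(par Φ T Λ r).2 - (par Φ T Λ s).2| ≤ C * ∫ a in (0 : ℝ)..T, ‖r a - s a‖ := by
  obtain ⟨B, hB, hb⟩ := h.bounds
  refine ⟨B * (‖Λ‖ * (B * B) + ‖Λ‖ * (B * B) * T * ‖f (x 0)‖ + B) + ‖Λ‖ * (B * B), ?_, ?_⟩
  · have := h.pos
    positivity
  intro r s hr hs
  have hI : 0 ≤ ∫ a in (0 : ℝ)..T, ‖r a - s a‖ :=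
    intervalIntegral.integral_nonneg h.pos.le (fun _ _ => norm_nonneg _)
  set I := ∫ a in (0 : ℝ)..T, ‖r a - s a‖ with hIdef
  have hpar := h.par_bound Λ hB hb hr hs
  rw [← hIdef] at hpar
  have hp1 : ‖(par Φ T Λ r).1 - (par Φ T Λ s).1‖ ≤ ‖Λ‖ * (B * (B * I)) :=
    (norm_fst_le (par Φ T Λ r - par Φ T Λ s)).trans hpar
  have hp2 : |(par Φ T Λ r).2 - (par Φ T Λ s).2| ≤ ‖Λ‖ * (B * (B * I)) :=
    (norm_snd_le (par Φ T Λ r - par Φ T Λ s)).trans hpar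
  have hT0 := h.pos.le
  have hΛ0 := norm_nonneg Λ
  constructor
  · intro t ht
    have h1 : U Φ T Λ (f (x 0)) r t - U Φ T Λ (f (x 0)) s t =
        Φ t (((par Φ T Λ r).1 - (par Φ T Λ s).1) +
          (((par Φ T Λ r).2 - (par Φ T Λ s).2) * t) • f (x 0) + (J Φ r t - J Φ s t)) := by
      rw [U, U, ← map_sub]
      congr 1
      rw [sub_mul, sub_smul]
      abel
    rw [h1]
    have h2 : ‖(((par Φ T Λ r).1 - (par Φ T Λ s).1) +
          (((par Φ T Λ r).2 - (par Φ T Λ s).2) * t) • f (x 0) + (J Φ r t - J Φ s t))‖ ≤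
        ‖Λ‖ * (B * (B * I)) + ‖Λ‖ * (B * (B * I)) * T * ‖f (x 0)‖ + B * I := by
      refine (norm_add_le _ _).trans (add_le_add ((norm_add_le _ _).trans
        (add_le_add hp1 ?_)) (h.J_bound hB hb hr hs ht))
      rw [norm_smul]
      refine mul_le_mul_of_nonneg_right ?_ (norm_nonneg _)
      rw [Real.norm_eq_abs, abs_mul]
      refine mul_le_mul hp2 ?_ (abs_nonneg _) ((abs_nonneg _).trans hp2)
      rw [abs_of_nonneg ht.1]; exact ht.2
    calc ‖Φ t _‖ ≤ ‖Φ t‖ * _ := ContinuousLinearMap.le_opNorm _ _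
      _ ≤ B * (‖Λ‖ * (B * (B * I)) + ‖Λ‖ * (B * (B * I)) * T * ‖f (x 0)‖ + B * I) :=
          mul_le_mul (hb t ht).1 h2 (norm_nonneg _) hB.le
      _ ≤ _ := by
          have : 0 ≤ ‖Λ‖ * (B * B) * I := by positivity
          nlinarith [this]
  · refine hp2.trans ?_
    have h3 : 0 ≤ B * (‖Λ‖ * (B * B) + ‖Λ‖ * (B * B) * T * ‖f (x 0)‖ + B) * I := by positivity
    nlinarith [h3]

end PData

end Pool.Agent.W5h40.RS
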