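import Pool.Agent.W5h40.RS.Op

/-!
# Persistence of periodic orbits with simple multiplier one, with an integral
estimate for the displacement
-/

open Set Filter Topology MeasureTheory intervalIntegral

namespace Pool.Agent.W5h40.RS

variable {E : Type} [NormedAddCommGroup E] [NormedSpace ℝ E]

/-- `g` is `δ`-close to `f`, in the sup norm and in the Lipschitz seminorm. -/
def Close (f : E → E) (δ : ℝ) (g : E → E) : Prop :=
  Continuous g ∧ (∀ y, ‖g y - f y‖ ≤ δ) ∧ ∀ y z, ‖(g y - f y) - (g z - f z)‖ ≤ δ * ‖y - z‖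

/-- The remainder term. -/
noncomputable def rem (f g : E → E) (y ξ : E) (σ : ℝ) : E :=
  (1 + σ) • g (y + ξ) - f y - fderiv ℝ f y ξ - σ • f y

theorem rem_sub_le {f g : E → E} {y : E} {η ρ B δ : ℝ} (hη : 0 ≤ η)
    (hst : ∀ u v : E, ‖u‖ ≤ ρ → ‖v‖ ≤ ρ →
      ‖f (y + u) - f (y + v) - fderiv ℝ f y (u - v)‖ ≤ η * ‖u - v‖)
    (hB : ‖fderiv ℝ f y‖ ≤ B) (hρ0 : 0 ≤ ρ) (hρ1 : ρ ≤ 1)
    (hg : Close f δ g) {ξ₁ ξ₂ : E} {σ₁ σ₂ d : ℝ} (h1 : ‖ξ₁‖ ≤ ρ) (h2 : ‖ξ₂‖ ≤ ρ)
    (h3 : |σ₁| ≤ ρ) (h5 : ‖ξ₁ - ξ₂‖ ≤ d) (h6 : |σ₁ - σ₂| ≤ d) :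
    ‖rem f g y ξ₁ σ₁ - rem f g y ξ₂ σ₂‖ ≤ (η + 2 * ρ * (B + η) + 3 * δ) * d := by
  have hB0 : 0 ≤ B := (norm_nonneg _).trans hB
  have hδ0 : 0 ≤ δ := (norm_nonneg _).trans (hg.2.1 y)
  have hd0 : 0 ≤ d := (norm_nonneg _).trans h5
  have key : rem f g y ξ₁ σ₁ - rem f g y ξ₂ σ₂ =
      (f (y + ξ₁) - f (y + ξ₂) - fderiv ℝ f y (ξ₁ - ξ₂)) +
      σ₁ • (f (y + ξ₁) - f (y + ξ₂)) + (σ₁ - σ₂) • (f (y + ξ₂) - f (y + 0)) +
      (1 + σ₁) • ((g (y + ξ₁) - f (y + ξ₁)) - (g (y + ξ₂) - f (y + ξ₂))) +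
      (σ₁ - σ₂) • (g (y + ξ₂) - f (y + ξ₂)) := by
    simp only [rem, add_zero, map_sub]
    module
  have e1 : ‖f (y + ξ₁) - f (y + ξ₂) - fderiv ℝ f y (ξ₁ - ξ₂)‖ ≤ η * d :=
    (hst _ _ h1 h2).trans (mul_le_mul_of_nonneg_left h5 hη)
  have lip : ∀ u v : E, ‖u‖ ≤ ρ → ‖v‖ ≤ ρ → ‖f (y + u) - f (y + v)‖ ≤ (B + η) * ‖u - v‖ := by
    intro u v hu hv
    have e : f (y + u) - f (y + v) =
        (f (y + u) - f (y + v) - fderiv ℝ f y (u - v)) + fderiv ℝ f y (u - v) := by abel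
    rw [e, add_mul, add_comm (B * _)]
    exact (norm_add_le _ _).trans (add_le_add (hst u v hu hv)
      ((ContinuousLinearMap.le_opNorm _ _).trans
        (mul_le_mul_of_nonneg_right hB (norm_nonneg _))))
  have hBη : 0 ≤ B + η := by positivity
  have e2 : ‖σ₁ • (f (y + ξ₁) - f (y + ξ₂))‖ ≤ ρ * ((B + η) * d) := by
    rw [norm_smul, Real.norm_eq_abs]
    exact mul_le_mul h3 ((lip _ _ h1 h2).trans (mul_le_mul_of_nonneg_left h5 hBη))
      (norm_nonneg _) hρ0
  have e3 : ‖(σ₁ - σ₂) • (f (y + ξ₂) - f (y + 0))‖ ≤ d * ((B + η) * ρ) := by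
    rw [norm_smul, Real.norm_eq_abs]
    refine mul_le_mul h6 ((lip _ _ h2 (by simpa using hρ0)).trans
      (mul_le_mul_of_nonneg_left ?_ hBη)) (norm_nonneg _) hd0
    simpa using h2
  have e4 : ‖(1 + σ₁) • ((g (y + ξ₁) - f (y + ξ₁)) - (g (y + ξ₂) - f (y + ξ₂)))‖ ≤
      2 * (δ * d) := by
    rw [norm_smul, Real.norm_eq_abs]
    refine mul_le_mul ?_ ((hg.2.2 _ _).trans (mul_le_mul_of_nonneg_left ?_ hδ0))
      (norm_nonneg _) (by norm_num)
    · calc |1 + σ₁| ≤ |1| + |σ₁| := abs_add_le _ _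
        _ ≤ 2 := by rw [abs_one]; linarith
    · rw [add_sub_add_left_eq_sub]; exact h5
  have e5 : ‖(σ₁ - σ₂) • (g (y + ξ₂) - f (y + ξ₂))‖ ≤ d * δ := by
    rw [norm_smul, Real.norm_eq_abs]
    exact mul_le_mul h6 (hg.2.1 _) (norm_nonneg _) hd0
  rw [key]
  calc _ ≤ η * d + ρ * ((B + η) * d) + d * ((B + η) * ρ) + 2 * (δ * d) + d * δ := by
        refine (norm_add_le _ _).trans (add_le_add ?_ e5)
        refine (norm_add_le _ _).trans (add_le_add ?_ e4)
        refine (norm_add_le _ _).trans (add_le_add ?_ e3)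
        exact (norm_add_le _ _).trans (add_le_add e1 e2)
    _ = _ := by ring

variable [FiniteDimensional ℝ E]

namespace PData

variable {f : E → E} {x : ℝ → E} {T : ℝ} {Φ : ℝ → E →L[ℝ] E}

omit [NormedSpace ℝ E] [FiniteDimensional ℝ E] in
/-- Descend a continuous periodic function to the circle. -/
noncomputable def toC (T : ℝ) (u : ℝ → E) (hc : Continuous u) (hp : ∀ t, u (t + T) = u t) :
    C(AddCircle T, E) where
  toFun := Function.Periodic.lift (f := u) (c := T) hp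
  continuous_toFun := by
    exact hc.quotient_lift _

omit [NormedSpace ℝ E] [FiniteDimensional ℝ E] in
theorem toC_coe (u : ℝ → E) (hc : Continuous u) (hp : ∀ t, u (t + T) = u t) (t : ℝ) :
    toC T u hc hp (t : AddCircle T) = u t := by
  exact Function.Periodic.lift_coe (f := u) (c := T) hp t

omit [NormedSpace ℝ E] [FiniteDimensional ℝ E] in
theorem cont_coe (r : C(AddCircle T, E)) : Continuous (fun t : ℝ => r (t : AddCircle T)) :=
  r.continuous.comp (AddCircle.continuous_mk' T)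

omit [NormedSpace ℝ E] [FiniteDimensional ℝ E] in
theorem per_coe (r : C(AddCircle T, E)) (t : ℝ) :
    r ((t + T : ℝ) : AddCircle T) = r (t : AddCircle T) := by
  rw [AddCircle.coe_add_period]

/-- The solution operator on the circle. -/
theorem exists_L (h : PData f x T Φ)
    (hS : Function.Surjective (bordered (Φ T) (T • f (x 0)))) [Fact (0 < T)] :
    ∃ C > 0, ∃ L : C(AddCircle T, E) → C(AddCircle T, E) × ℝ,
      (∀ r s, ‖L r - L s‖ ≤ C * ∫ a in (0 : ℝ)..T, ‖r (a : AddCircle T) - s (a : AddCircle T)‖) ∧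
      (L 0 = 0) ∧
      ∀ r, ∀ t : ℝ, HasDerivAt (fun t : ℝ => (L r).1 (t : AddCircle T))
        (fderiv ℝ f (x t) ((L r).1 (t : AddCircle T)) + (L r).2 • f (x t) +
          r (t : AddCircle T)) t := by
  obtain ⟨Λ₀, hΛ₀⟩ := (bordered (Φ T) (T • f (x 0))).exists_rightInverse_of_surjective
    (LinearMap.range_eq_top.2 hS)
  set Λ : E →L[ℝ] E × ℝ := LinearMap.toContinuousLinearMap Λ₀ with hΛdef
  have hΛ : ∀ v, bordered (Φ T) (T • f (x 0)) (Λ v) = v := by
    intro v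
    exact LinearMap.congr_fun hΛ₀ v
  obtain ⟨C, hC, hU⟩ := h.U_bound Λ
  have hcont : ∀ r : C(AddCircle T, E),
      Continuous (U Φ T Λ (f (x 0)) (fun t : ℝ => r (t : AddCircle T))) := fun r =>
    continuous_iff_continuousAt.2 fun t => (h.U_deriv Λ (cont_coe r) t).continuousAt
  have hper : ∀ r : C(AddCircle T, E), ∀ t,
      U Φ T Λ (f (x 0)) (fun t : ℝ => r (t : AddCircle T)) (t + T) =
      U Φ T Λ (f (x 0)) (fun t : ℝ => r (t : AddCircle T)) t := fun r =>
    h.U_periodic hΛ (cont_coe r) (per_coe r)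
  refine ⟨C, hC, fun r => (toC T _ (hcont r) (hper r),
    (par Φ T Λ (fun t : ℝ => r (t : AddCircle T))).2), ?_, ?_, ?_⟩
  · intro r s
    have h1 := hU _ _ (cont_coe r) (cont_coe s)
    have hI : 0 ≤ C * ∫ a in (0 : ℝ)..T, ‖r (a : AddCircle T) - s (a : AddCircle T)‖ :=
      (abs_nonneg _).trans h1.2
    rw [Prod.norm_def]
    apply max_le
    · rw [ContinuousMap.norm_le _ hI]
      intro θ
      obtain ⟨t, ht, rfl⟩ := θ.eq_coe_Ico
      have h2 := h1.1 t ⟨ht.1, ht.2.le⟩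
      simpa only [Prod.fst_sub, ContinuousMap.sub_apply, toC_coe] using h2
    · exact h1.2
  · have h0 : par Φ T Λ (fun t : ℝ => (0 : C(AddCircle T, E)) (t : AddCircle T)) = 0 := by
      simp [par, J]
    apply Prod.ext
    · ext θ
      obtain ⟨t, ht, rfl⟩ := θ.eq_coe_Ico
      simp only [toC_coe, Prod.fst_zero, ContinuousMap.zero_apply]
      simp [U, J, par]
    · simp only [h0, Prod.snd_zero]
  · intro r t
    simp only [toC_coe]
    exact h.U_deriv Λ (cont_coe r) t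

/-- The remainder as a continuous function on the circle. -/
noncomputable def remC (f : E → E) (hf : ContDiff ℝ 1 f) (xc : C(AddCircle T, E))
    (g : E → E) (hg : Continuous g) (z : C(AddCircle T, E) × ℝ) : C(AddCircle T, E) where
  toFun θ := rem f g (xc θ) (z.1 θ) z.2
  continuous_toFun := by
    have h1 : Continuous (fderiv ℝ f) := hf.continuous_fderiv (by norm_num)
    have h2 : Continuous (fun θ => g (xc θ + z.1 θ)) :=
      hg.comp (xc.continuous.add z.1.continuous)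
    have h3 : Continuous (fun θ => f (xc θ)) := hf.continuous.comp xc.continuous
    have h4 : Continuous (fun θ => fderiv ℝ f (xc θ) (z.1 θ)) :=
      (h1.comp xc.continuous).clm_apply z.1.continuous
    unfold rem
    exact (((continuous_const.smul h2).sub h3).sub h4).sub (continuous_const.smul h3)

theorem integral_le_const {T : ℝ} (hT : 0 ≤ T) {u : ℝ → ℝ} (hu : Continuous u) {c : ℝ}
    (h : ∀ t, u t ≤ c) : ∫ a in (0 : ℝ)..T, u a ≤ c * T := by
  calc ∫ a in (0 : ℝ)..T, u a ≤ ∫ _a in (0 : ℝ)..T, c :=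
        integral_mono_on hT (hu.intervalIntegrable _ _) (continuous_const.intervalIntegrable _ _)
          (fun a _ => h a)
    _ = c * T := by simp [mul_comm]

/-- **Persistence theorem.** -/
theorem persist (h : PData f x T Φ)
    (hS : Function.Surjective (bordered (Φ T) (T • f (x 0)))) :
    ∃ δ > 0, ∃ C > 0, ∃ X : (E → E) → ℝ → E, ∃ τ : (E → E) → ℝ,
      (∀ g, Close f δ g → (∀ t, HasDerivAt (X g) (τ g • g (X g t)) t) ∧
        (∀ t, X g (t + T) = X g t) ∧ 0 < τ g) ∧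
      (∀ g₁ g₂, Close f δ g₁ → Close f δ g₂ → (∀ t, ‖X g₁ t - X g₂ t‖ ≤
        C * ∫ s in (0 : ℝ)..T, ‖g₁ (X g₁ s) - g₂ (X g₁ s)‖) ∧
        |τ g₁ - τ g₂| ≤ C * ∫ s in (0 : ℝ)..T, ‖g₁ (X g₁ s) - g₂ (X g₁ s)‖) ∧
      (∀ t, X f t = x t) ∧ τ f = 1 := by
  have : Fact (0 < T) := ⟨h.pos⟩
  have hT := h.pos
  obtain ⟨C, hC, L, hL1, hL0, hL⟩ := h.exists_L hS
  obtain ⟨B, hB0, hB⟩ := h.bound_A
  set κ : ℝ := C * T + 1 with hκ
  have hκ0 : 0 < κ := by positivity
  set η : ℝ := 1 / (8 * κ) with hη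
  have hη0 : 0 < η := by positivity
  obtain ⟨ρ₁, hρ₁, hst⟩ := uniform_strict h.smooth h.compact_range hη0
  set ρ : ℝ := min (min ρ₁ (1 / 2)) (1 / (16 * κ * (B + η))) with hρ
  have hBη : 0 < B + η := by positivity
  have hρ0 : 0 < ρ := by
    refine lt_min (lt_min hρ₁ (by norm_num)) (by positivity)
  have hρle : ρ ≤ ρ₁ := (min_le_left _ _).trans (min_le_left _ _)
  have hρ12 : ρ ≤ 1 / 2 := (min_le_left _ _).trans (min_le_right _ _)
  have hρκ : ρ ≤ 1 / (16 * κ * (B + η)) := min_le_right _ _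
  set δ : ℝ := min (1 / (24 * κ)) (ρ / (2 * κ)) with hδ
  have hδ0 : 0 < δ := by
    refine lt_min (by positivity) (by positivity)
  have hsmall : C * T * (η + 2 * ρ * (B + η) + 3 * δ) ≤ 1 / 2 := by
    have e1 : η * κ = 1 / 8 := by rw [hη]; field_simp
    have e2 : ρ * (B + η) * κ ≤ 1 / 16 := by
      have := mul_le_mul_of_nonneg_right hρκ (by positivity : 0 ≤ (B + η) * κ)
      calc ρ * (B + η) * κ = ρ * ((B + η) * κ) := by ring
        _ ≤ 1 / (16 * κ * (B + η)) * ((B + η) * κ) := this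
        _ = 1 / 16 := by field_simp
    have e3 : δ * κ ≤ 1 / 24 := by
      have := mul_le_mul_of_nonneg_right (min_le_left (1 / (24 * κ)) (ρ / (2 * κ))) hκ0.le
      calc δ * κ ≤ 1 / (24 * κ) * κ := this
        _ = 1 / 24 := by field_simp
    have e4 : C * T ≤ κ := by rw [hκ]; linarith
    have e5 : 0 ≤ η + 2 * ρ * (B + η) + 3 * δ := by positivity
    calc C * T * (η + 2 * ρ * (B + η) + 3 * δ) ≤ κ * (η + 2 * ρ * (B + η) + 3 * δ) :=
          mul_le_mul_of_nonneg_right e4 e5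
      _ ≤ 1 / 2 := by nlinarith [e1, e2, e3]
  have hδκ : C * T * δ ≤ ρ / 2 := by
    have := mul_le_mul_of_nonneg_right (min_le_right (1 / (24 * κ)) (ρ / (2 * κ))) hκ0.le
    have e1 : δ * κ ≤ ρ / 2 := by
      calc δ * κ ≤ ρ / (2 * κ) * κ := this
        _ = ρ / 2 := by field_simp
    have e4 : C * T ≤ κ := by rw [hκ]; linarith
    nlinarith
  set xc : C(AddCircle T, E) := toC T x h.cont_x h.per with hxc
  have hxcB : ∀ θ, ‖fderiv ℝ f (xc θ)‖ ≤ B := by
    intro θ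
    obtain ⟨t, ht, rfl⟩ := θ.eq_coe_Ico
    rw [hxc, toC_coe]
    exact hB t
  have hxcst : ∀ θ, ∀ u v : E, ‖u‖ ≤ ρ → ‖v‖ ≤ ρ →
      ‖f (xc θ + u) - f (xc θ + v) - fderiv ℝ f (xc θ) (u - v)‖ ≤ η * ‖u - v‖ := by
    intro θ u v hu hv
    obtain ⟨t, ht, rfl⟩ := θ.eq_coe_Ico
    rw [hxc, toC_coe]
    exact hst _ (mem_range_self t) u v (hu.trans hρle) (hv.trans hρle)
  -- the contraction estimate
  have hcontr : ∀ g (hg : Close f δ g) (z w : C(AddCircle T, E) × ℝ), ‖z‖ ≤ ρ → ‖w‖ ≤ ρ →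
      ‖L (remC f h.smooth xc g hg.1 z) - L (remC f h.smooth xc g hg.1 w)‖ ≤
        1 / 2 * ‖z - w‖ := by
    intro g hg z w hz hw
    have h1 : ∀ θ, ‖remC f h.smooth xc g hg.1 z θ - remC f h.smooth xc g hg.1 w θ‖ ≤
        (η + 2 * ρ * (B + η) + 3 * δ) * ‖z - w‖ := by
      intro θ
      apply rem_sub_le hη0.le (hxcst θ) (hxcB θ) hρ0.le (hρ12.trans (by norm_num)) hg
      · exact (z.1.norm_coe_le_norm θ).trans ((norm_fst_le z).trans hz)
      · exact (w.1.norm_coe_le_norm θ).trans ((norm_fst_le w).trans hw)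
      · exact (norm_snd_le z).trans hz
      · exact ((z - w).1.norm_coe_le_norm θ).trans (norm_fst_le (z - w))
      · exact norm_snd_le (z - w)
    have hcc : Continuous (fun a : ℝ => ‖remC f h.smooth xc g hg.1 z (a : AddCircle T) -
        remC f h.smooth xc g hg.1 w (a : AddCircle T)‖) :=
      ((cont_coe _).sub (cont_coe _)).norm
    calc _ ≤ C * ∫ a in (0 : ℝ)..T, ‖remC f h.smooth xc g hg.1 z (a : AddCircle T) -
        remC f h.smooth xc g hg.1 w (a : AddCircle T)‖ := hL1 _ _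
      _ ≤ C * ((η + 2 * ρ * (B + η) + 3 * δ) * ‖z - w‖ * T) :=
        mul_le_mul_of_nonneg_left (integral_le_const hT.le hcc (fun a => h1 _)) hC.le
      _ = C * T * (η + 2 * ρ * (B + η) + 3 * δ) * ‖z - w‖ := by ring
      _ ≤ 1 / 2 * ‖z - w‖ := mul_le_mul_of_nonneg_right hsmall (norm_nonneg _)
  have hzero : ∀ g (hg : Close f δ g), ‖L (remC f h.smooth xc g hg.1 0)‖ ≤ ρ / 2 := by
    intro g hg
    have h1 : ∀ θ, ‖remC f h.smooth xc g hg.1 0 θ - (0 : C(AddCircle T, E)) θ‖ ≤ δ := by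
      intro θ
      have h2 : remC f h.smooth xc g hg.1 0 θ = g (xc θ) - f (xc θ) := by
        simp [remC, rem]
      rw [h2, ContinuousMap.zero_apply, sub_zero]
      exact hg.2.1 _
    have hcc : Continuous (fun a : ℝ => ‖remC f h.smooth xc g hg.1 0 (a : AddCircle T) -
        (0 : C(AddCircle T, E)) (a : AddCircle T)‖) :=
      ((cont_coe _).sub (cont_coe _)).norm
    have h3 := hL1 (remC f h.smooth xc g hg.1 0) 0
    rw [hL0, sub_zero] at h3
    calc _ ≤ _ := h3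
      _ ≤ C * (δ * T) :=
        mul_le_mul_of_nonneg_left (integral_le_const hT.le hcc (fun a => h1 _)) hC.le
      _ = C * T * δ := by ring
      _ ≤ ρ / 2 := hδκ
  have hmaps : ∀ g (hg : Close f δ g) (z : C(AddCircle T, E) × ℝ), ‖z‖ ≤ ρ →
      ‖L (remC f h.smooth xc g hg.1 z)‖ ≤ ρ := by
    intro g hg z hz
    have h1 := hcontr g hg z 0 hz (by simpa using hρ0.le)
    rw [sub_zero] at h1
    have h2 := hzero g hg
    have h3 : ‖L (remC f h.smooth xc g hg.1 z)‖ ≤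
        ‖L (remC f h.smooth xc g hg.1 z) - L (remC f h.smooth xc g hg.1 0)‖ +
          ‖L (remC f h.smooth xc g hg.1 0)‖ := by
      have := norm_add_le (L (remC f h.smooth xc g hg.1 z) - L (remC f h.smooth xc g hg.1 0))
        (L (remC f h.smooth xc g hg.1 0))
      simpa using this
    linarith
  have hfix : ∀ g, ∃ z : C(AddCircle T, E) × ℝ, ∀ hg : Close f δ g,
      ‖z‖ ≤ ρ ∧ L (remC f h.smooth xc g hg.1 z) = z := by
    intro g
    by_cases hg : Close f δ g
    swap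
    · exact ⟨0, fun h' => absurd h' hg⟩
    set N : C(AddCircle T, E) × ℝ → C(AddCircle T, E) × ℝ :=
      fun z => L (remC f h.smooth xc g hg.1 z) with hN
    have hcs : IsComplete (Metric.closedBall (0 : C(AddCircle T, E) × ℝ) ρ) :=
      Metric.isClosed_closedBall.isComplete
    have hms : MapsTo N (Metric.closedBall (0 : C(AddCircle T, E) × ℝ) ρ)
        (Metric.closedBall (0 : C(AddCircle T, E) × ℝ) ρ) := by
      intro z hz
      rw [mem_closedBall_zero_iff] at hz ⊢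
      exact hmaps g hg z hz
    have hcw : ContractingWith (1 / 2) (hms.restrict N _ _) := by
      refine ⟨by norm_num, LipschitzWith.of_dist_le_mul ?_⟩
      rintro ⟨z, hz⟩ ⟨w, hw⟩
      rw [mem_closedBall_zero_iff] at hz hw
      have := hcontr g hg z w hz hw
      rw [Subtype.dist_eq, Subtype.dist_eq, dist_eq_norm, dist_eq_norm]
      simpa [MapsTo.restrict, hN] using this
    obtain ⟨z, hz, hfz, -⟩ := hcw.exists_fixedPoint' hcs hms
      (x := 0) (by simpa using hρ0.le) (edist_ne_top _ _)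
    refine ⟨z, fun _ => ⟨?_, hfz⟩⟩
    rwa [mem_closedBall_zero_iff] at hz
  choose z hz using hfix
  -- continuous dependence
  have hdep : ∀ g₁ g₂ (hg₁ : Close f δ g₁) (hg₂ : Close f δ g₂),
      ‖z g₁ - z g₂‖ ≤ 4 * C * ∫ s in (0 : ℝ)..T,
        ‖g₁ (x s + (z g₁).1 (s : AddCircle T)) - g₂ (x s + (z g₁).1 (s : AddCircle T))‖ := by
    intro g₁ g₂ hg₁ hg₂
    obtain ⟨hz1, hf1⟩ := hz g₁ hg₁
    obtain ⟨hz2, hf2⟩ := hz g₂ hg₂
    have h1 := hcontr g₂ hg₂ (z g₁) (z g₂) hz1 hz2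
    have h2 := hL1 (remC f h.smooth xc g₁ hg₁.1 (z g₁)) (remC f h.smooth xc g₂ hg₂.1 (z g₁))
    have h3 : ∫ a in (0 : ℝ)..T, ‖remC f h.smooth xc g₁ hg₁.1 (z g₁) (a : AddCircle T) -
        remC f h.smooth xc g₂ hg₂.1 (z g₁) (a : AddCircle T)‖ ≤
        2 * ∫ s in (0 : ℝ)..T,
        ‖g₁ (x s + (z g₁).1 (s : AddCircle T)) - g₂ (x s + (z g₁).1 (s : AddCircle T))‖ := by
      rw [← intervalIntegral.integral_const_mul]
      have hcx : Continuous (fun s : ℝ => x s + (z g₁).1 (s : AddCircle T)) :=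
        h.cont_x.add (cont_coe _)
      apply integral_mono_on hT.le
      · exact (((cont_coe _).sub (cont_coe _)).norm).intervalIntegrable _ _
      · exact (continuous_const.mul ((hg₁.1.comp hcx).sub
          (hg₂.1.comp hcx)).norm).intervalIntegrable _ _
      · intro s _
        have h4 : remC f h.smooth xc g₁ hg₁.1 (z g₁) (s : AddCircle T) -
            remC f h.smooth xc g₂ hg₂.1 (z g₁) (s : AddCircle T) =
            (1 + (z g₁).2) • (g₁ (x s + (z g₁).1 (s : AddCircle T)) -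
              g₂ (x s + (z g₁).1 (s : AddCircle T))) := by
          simp only [remC, ContinuousMap.coe_mk, rem, hxc, toC_coe]
          module
        rw [h4, norm_smul, Real.norm_eq_abs]
        refine mul_le_mul_of_nonneg_right ?_ (norm_nonneg _)
        calc |1 + (z g₁).2| ≤ |1| + |(z g₁).2| := abs_add_le _ _
          _ ≤ 2 := by
            have := (norm_snd_le (z g₁)).trans hz1
            rw [Real.norm_eq_abs] at this
            rw [abs_one]; linarith
    have h5 : ‖z g₁ - z g₂‖ ≤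
        ‖L (remC f h.smooth xc g₁ hg₁.1 (z g₁)) - L (remC f h.smooth xc g₂ hg₂.1 (z g₁))‖ +
        ‖L (remC f h.smooth xc g₂ hg₂.1 (z g₁)) - L (remC f h.smooth xc g₂ hg₂.1 (z g₂))‖ := by
      have e : z g₁ - z g₂ =
          (L (remC f h.smooth xc g₁ hg₁.1 (z g₁)) - L (remC f h.smooth xc g₂ hg₂.1 (z g₁))) +
          (L (remC f h.smooth xc g₂ hg₂.1 (z g₁)) -
            L (remC f h.smooth xc g₂ hg₂.1 (z g₂))) := by
        rw [hf1, hf2]; abel
      have e2 := norm_add_le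
        (L (remC f h.smooth xc g₁ hg₁.1 (z g₁)) - L (remC f h.smooth xc g₂ hg₂.1 (z g₁)))
        (L (remC f h.smooth xc g₂ hg₂.1 (z g₁)) - L (remC f h.smooth xc g₂ hg₂.1 (z g₂)))
      rwa [← e] at e2
    have h6 := mul_le_mul_of_nonneg_left h3 hC.le
    have h7 := norm_nonneg (z g₁ - z g₂)
    linarith
  have hff : Close f δ f := by
    refine ⟨h.smooth.continuous, fun y => by simpa using hδ0.le, fun y w => ?_⟩
    simp only [sub_self, norm_zero]
    positivity
  have hzf : z f = 0 := by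
    obtain ⟨hz1, hf1⟩ := hz f hff
    have h1 := hcontr f hff (z f) 0 hz1 (by simpa using hρ0.le)
    have h2 : remC f h.smooth xc f hff.1 0 = 0 := by
      ext θ
      simp [remC, rem]
    rw [hf1, h2, hL0, sub_zero] at h1
    have h3 := norm_nonneg (z f)
    have h4 : ‖z f‖ = 0 := by linarith
    exact norm_eq_zero.1 h4
  refine ⟨δ, hδ0, 4 * C, by positivity, fun g t => x t + (z g).1 (t : AddCircle T),
    fun g => 1 + (z g).2, ?_, ?_, ?_, ?_⟩
  · intro g hg
    obtain ⟨hz1, hf1⟩ := hz g hg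
    refine ⟨fun t => ?_, fun t => ?_, ?_⟩
    · have h1 := hL (remC f h.smooth xc g hg.1 (z g)) t
      rw [hf1] at h1
      refine ((h.sol t).fun_add h1).congr_deriv ?_
      simp only [remC, ContinuousMap.coe_mk, rem, hxc, toC_coe]
      module
    · show x (t + T) + (z g).1 ((t + T : ℝ) : AddCircle T) = _
      rw [h.per, per_coe]
    · have h2 := (norm_snd_le (z g)).trans hz1
      rw [Real.norm_eq_abs] at h2
      have h3 := abs_le.1 (h2.trans hρ12)
      linarith [h3.1]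
  · intro g₁ g₂ hg₁ hg₂
    have h1 := hdep g₁ g₂ hg₁ hg₂
    constructor
    · intro t
      refine le_trans ?_ h1
      have h2 : x t + (z g₁).1 (t : AddCircle T) - (x t + (z g₂).1 (t : AddCircle T)) =
          (z g₁ - z g₂).1 (t : AddCircle T) := by
        simp only [Prod.fst_sub, ContinuousMap.sub_apply]; abel
      rw [h2]
      exact ((z g₁ - z g₂).1.norm_coe_le_norm _).trans (norm_fst_le _)
    · refine le_trans ?_ h1
      have h2 : 1 + (z g₁).2 - (1 + (z g₂).2) = (z g₁ - z g₂).2 := by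
        simp only [Prod.snd_sub]; ring
      show |1 + (z g₁).2 - (1 + (z g₂).2)| ≤ ‖z g₁ - z g₂‖
      rw [h2]
      exact norm_snd_le (z g₁ - z g₂)
  · intro t
    simp [hzf]
  · simp [hzf]

end PData

end Pool.Agent.W5h40.RS
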