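import Pool.Agent.W5h40.RS.NetLem

/-!
# Coincidence relations, semicontinuity and selection of a generic instant
-/

open Set Filter Topology

namespace Pool.Agent.W5h40.RS

namespace Network

variable {N : Network}

/-- Nodes `c` and `d` have the same state at the point `P`. -/
def Eqv (P : N.Phase) (c d : N.Node) : Prop := ∃ h : N.dim c = N.dim d, move h (P c) = P d

theorem Eqv.refl (P : N.Phase) (c : N.Node) : Eqv P c c := ⟨rfl, rfl⟩

theorem Eqv.symm {P : N.Phase} {c d : N.Node} (h : Eqv P c d) : Eqv P d c := by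
  obtain ⟨h1, h2⟩ := h
  refine ⟨h1.symm, ?_⟩
  rw [← h2, move_move]
  rfl

theorem Eqv.trans {P : N.Phase} {c d e : N.Node} (h : Eqv P c d) (h' : Eqv P d e) :
    Eqv P c e := by
  obtain ⟨h1, h2⟩ := h
  obtain ⟨h3, h4⟩ := h'
  refine ⟨h1.trans h3, ?_⟩
  rw [← h4, ← h2, move_move]

theorem cont_move {m n : ℕ} (h : m = n) : Continuous (fun v : Fin m → ℝ => move h v) :=
  (moveL h).continuous

theorem isClosed_eqv (c d : N.Node) : IsClosed {P : N.Phase | Eqv P c d} := by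
  by_cases h : N.dim c = N.dim d
  · have : {P : N.Phase | Eqv P c d} = {P : N.Phase | move h (P c) = P d} := by
      ext P
      exact ⟨fun ⟨_, h2⟩ => h2, fun h2 => ⟨h, h2⟩⟩
    rw [this]
    exact isClosed_eq ((cont_move h).comp (continuous_apply c)) (continuous_apply d)
  · have : {P : N.Phase | Eqv P c d} = ∅ := by
      ext P
      simp only [mem_ofPred_eq, mem_empty_iff_false, iff_false]
      rintro ⟨h2, -⟩
      exact h h2
    rw [this]
    exact isClosed_empty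

theorem eventually_eqv (P : N.Phase) : ∀ᶠ Y in 𝓝 P, ∀ c d, Eqv Y c d → Eqv P c d := by
  rw [eventually_all]
  intro c
  rw [eventually_all]
  intro d
  by_cases h : Eqv P c d
  · exact Eventually.of_forall fun _ _ => h
  · have : {Y : N.Phase | Eqv Y c d}ᶜ ∈ 𝓝 P := (isClosed_eqv c d).isOpen_compl.mem_nhds h
    filter_upwards [this] with Y hY hYc
    exact absurd hYc hY

theorem eventually_zero (P : N.Phase) : ∀ᶠ Y in 𝓝 P, ∀ c, Y c = 0 → P c = 0 := by
  rw [eventually_all]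
  intro c
  by_cases h : P c = 0
  · exact Eventually.of_forall fun _ _ => h
  · have h1 : IsClosed {Y : N.Phase | Y c = 0} :=
      isClosed_eq (continuous_apply c) continuous_const
    have : {Y : N.Phase | Y c = 0}ᶜ ∈ 𝓝 P := h1.isOpen_compl.mem_nhds h
    filter_upwards [this] with Y hY hYc
    exact absurd hYc hY

/-- Selection of a parameter and a time where the number of coincidences plus the number of
vanishing velocities is minimal; there both are locally constant. -/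
theorem selection {G : Type} (𝒢 : Set G) (h𝒢 : 𝒢.Nonempty) (X V : G → ℝ → N.Phase) :
    ∃ g₀ ∈ 𝒢, ∃ t₀ : ℝ, ∃ η > 0, ∀ g ∈ 𝒢, ∀ t : ℝ, ‖X g t - X g₀ t₀‖ < η →
      ‖V g t - V g₀ t₀‖ < η →
      (∀ c d, Eqv (X g t) c d ↔ Eqv (X g₀ t₀) c d) ∧ (∀ c, V g t c = 0 ↔ V g₀ t₀ c = 0) := by
  let EE : N.Phase → Set (N.Node × N.Node) := fun P => {p | Eqv P p.1 p.2}
  let ZZ : N.Phase → Set N.Node := fun P => {c | P c = 0}
  let m : G × ℝ → ℕ := fun p => (EE (X p.1 p.2)).ncard + (ZZ (V p.1 p.2)).ncard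
  have hne : (𝒢 ×ˢ (univ : Set ℝ)).Nonempty := h𝒢.prod univ_nonempty
  obtain ⟨⟨g₀, t₀⟩, hmem, hmin⟩ := exists_minimalFor_of_wellFoundedLT
    (fun p => p ∈ 𝒢 ×ˢ (univ : Set ℝ)) m hne
  have h1 := eventually_eqv (X g₀ t₀)
  have h2 := eventually_zero (V g₀ t₀)
  rw [Metric.eventually_nhds_iff] at h1 h2
  obtain ⟨η₁, hη₁, h1⟩ := h1
  obtain ⟨η₂, hη₂, h2⟩ := h2
  refine ⟨g₀, hmem.1, t₀, min η₁ η₂, lt_min hη₁ hη₂, fun g hg t hX hV => ?_⟩
  have h3 : EE (X g t) ⊆ EE (X g₀ t₀) := by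
    intro p hp
    exact h1 (by rw [dist_eq_norm]; exact hX.trans_le (min_le_left _ _)) p.1 p.2 hp
  have h4 : ZZ (V g t) ⊆ ZZ (V g₀ t₀) := by
    intro c hc
    exact h2 (by rw [dist_eq_norm]; exact hV.trans_le (min_le_right _ _)) c hc
  have h5 := Set.ncard_le_ncard h3 (toFinite _)
  have h6 := Set.ncard_le_ncard h4 (toFinite _)
  have h7 : m (g₀, t₀) ≤ m (g, t) := by
    by_contra hlt
    push Not at hlt
    have := hmin (j := (g, t)) ⟨hg, mem_univ _⟩ hlt.le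
    omega
  have h8 : (EE (X g₀ t₀)).ncard + (ZZ (V g₀ t₀)).ncard ≤
      (EE (X g t)).ncard + (ZZ (V g t)).ncard := h7
  have h9 : EE (X g t) = EE (X g₀ t₀) :=
    Set.eq_of_subset_of_ncard_le h3 (by omega) (toFinite _)
  have h10 : ZZ (V g t) = ZZ (V g₀ t₀) :=
    Set.eq_of_subset_of_ncard_le h4 (by omega) (toFinite _)
  refine ⟨fun c d => ?_, fun c => ?_⟩
  · have := Set.ext_iff.1 h9 (c, d)
    exact this
  · exact Set.ext_iff.1 h10 c

/-- The context: a family of periodic solutions depending on the perturbed field. -/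
structure Ctx (N : Network) (𝒢 : Set (N.Phase → N.Phase)) (T C : ℝ)
    (X : (N.Phase → N.Phase) → ℝ → N.Phase) (τ : (N.Phase → N.Phase) → ℝ) : Prop where
  adm : ∀ g ∈ 𝒢, N.Admissible g
  room : ∀ g ∈ 𝒢, ∃ κ > 0, ∀ p : N.Phase → N.Phase, N.Admissible (fun x => g x + p x) →
    ContDiff ℝ 1 p → (∀ x, ‖p x‖ ≤ κ) → (∀ x y, ‖p x - p y‖ ≤ κ * ‖x - y‖) →
    (fun x => g x + p x) ∈ 𝒢
  T_pos : 0 < T
  C_pos : 0 < C
  deriv : ∀ g ∈ 𝒢, ∀ t, HasDerivAt (X g) (τ g • g (X g t)) t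
  per : ∀ g ∈ 𝒢, ∀ t, X g (t + T) = X g t
  τ_pos : ∀ g ∈ 𝒢, 0 < τ g
  dep : ∀ g₁ ∈ 𝒢, ∀ g₂ ∈ 𝒢, ∀ t, ‖X g₁ t - X g₂ t‖ ≤
    C * ∫ s in (0 : ℝ)..T, ‖g₁ (X g₁ s) - g₂ (X g₁ s)‖

namespace Ctx

variable {𝒢 : Set (N.Phase → N.Phase)} {T C : ℝ}
  {X : (N.Phase → N.Phase) → ℝ → N.Phase} {τ : (N.Phase → N.Phase) → ℝ}

theorem cont (K : Ctx N 𝒢 T C X τ) {g : N.Phase → N.Phase} (hg : g ∈ 𝒢) : Continuous (X g) :=
  continuous_iff_continuousAt.2 fun t => (K.deriv g hg t).continuousAt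

theorem contg (K : Ctx N 𝒢 T C X τ) {g : N.Phase → N.Phase} (hg : g ∈ 𝒢) : Continuous g :=
  (K.adm g hg).contDiff.continuous

theorem contV (K : Ctx N 𝒢 T C X τ) {g : N.Phase → N.Phase} (hg : g ∈ 𝒢) :
    Continuous (fun t => g (X g t)) := (K.contg hg).comp (K.cont hg)

/-- Equality of velocities. -/
theorem velocity_eq (K : Ctx N 𝒢 T C X τ) {g : N.Phase → N.Phase} (hg : g ∈ 𝒢) {t₁ : ℝ}
    {c d : N.Node} (h : N.dim c = N.dim d) (hev : ∀ᶠ t in 𝓝 t₁, move h (X g t c) = X g t d) :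
    move h (g (X g t₁) c) = g (X g t₁) d := by
  have h1 := K.deriv g hg t₁
  rw [hasDerivAt_pi] at h1
  have h2 : HasDerivAt (fun t => move h (X g t c)) (move h ((τ g • g (X g t₁)) c)) t₁ :=
    (moveL h).hasFDerivAt.comp_hasDerivAt t₁ (h1 c)
  have h3 : HasDerivAt (fun t => move h (X g t c)) ((τ g • g (X g t₁)) d) t₁ :=
    (h1 d).congr_of_eventuallyEq hev
  have h4 := h2.unique h3
  have h5 : τ g • move h (g (X g t₁) c) = τ g • g (X g t₁) d := h4
  exact smul_right_injective _ (K.τ_pos g hg).ne' h5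

end Ctx

end Network

end Pool.Agent.W5h40.RS
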