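import Pool.Agent.W5h40.RS.Interp

/-!
# Balance at stationary nodes
-/

open Set Filter Topology MeasureTheory

namespace Pool.Agent.W5h40.RS

namespace Network

variable {N : Network}

open Classical in
/-- Projection onto the coordinates of a set of nodes. -/
noncomputable def projL (Z : N.Node → Prop) : N.Phase →L[ℝ] N.Phase :=
  LinearMap.toContinuousLinearMap
    { toFun := fun v i => if Z i then v i else 0
      map_add' := fun v w => by
        funext i
        by_cases h : Z i <;> simp [h]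
      map_smul' := fun a v => by
        funext i
        by_cases h : Z i <;> simp [h] }

open Classical in
theorem projL_pos {Z : N.Node → Prop} (v : N.Phase) {i : N.Node} (h : Z i) :
    projL Z v i = v i := by
  show (if Z i then v i else 0) = v i
  rw [if_pos h]

open Classical in
theorem projL_neg {Z : N.Node → Prop} (v : N.Phase) {i : N.Node} (h : ¬ Z i) :
    projL Z v i = 0 := by
  show (if Z i then v i else 0) = 0
  rw [if_neg h]

/-- The subspace of points with all the coincidences of `P`. -/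
def synSpace (P : N.Phase) : Submodule ℝ N.Phase where
  carrier := {ξ | ∀ (c d : N.Node) (h : N.dim c = N.dim d), move h (P c) = P d →
    move h (ξ c) = ξ d}
  add_mem' := by
    intro a b ha hb c d h hP
    rw [Pi.add_apply, Pi.add_apply, move_add, ha c d h hP, hb c d h hP]
  zero_mem' := by
    intro c d h _
    exact move_zero h
  smul_mem' := by
    intro r a ha c d h hP
    rw [Pi.smul_apply, Pi.smul_apply, move_smul, ha c d h hP]

/-- The subspace of values compatible with the coincidences of inputs at `P`. -/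
def inpSpace (P : N.Phase) : Submodule ℝ N.Phase where
  carrier := {b | ∀ (c d : N.Node) (β : N.InputIso c d), pull β (inputs P d) = inputs P c →
    move β.dim_eq (b c) = b d}
  add_mem' := by
    intro a b ha hb c d β hP
    rw [Pi.add_apply, Pi.add_apply, move_add, ha c d β hP, hb c d β hP]
  zero_mem' := by
    intro c d β _
    exact move_zero _
  smul_mem' := by
    intro r a ha c d β hP
    rw [Pi.smul_apply, Pi.smul_apply, move_smul, ha c d β hP]

theorem synSpace_le (P : N.Phase) : synSpace P ≤ inpSpace P := by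
  intro ξ hξ c d β hP
  apply hξ c d β.dim_eq
  have h1 : move β.dim_eq.symm (P d) = P c := congrArg Prod.fst hP
  rw [← h1, move_move]
  rfl

namespace Ctx

variable {𝒢 : Set (N.Phase → N.Phase)} {T C : ℝ}
  {X : (N.Phase → N.Phase) → ℝ → N.Phase} {τ : (N.Phase → N.Phase) → ℝ}

/-- The linearized equation obtained by perturbing at stationary nodes. -/
theorem linearized (K : Ctx N 𝒢 T C X τ) {g₀ : N.Phase → N.Phase} (hg : g₀ ∈ 𝒢) {t₀ η : ℝ}
    (hη : 0 < η) (hloc : LocConst 𝒢 X g₀ t₀ η)
    (hcl : ∀ c, g₀ (X g₀ t₀) c = 0 → ∀ a : N.In c, g₀ (X g₀ t₀) (N.tail a.1) = 0)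
    (b : N.Phase) (hb : b ∈ inpSpace (X g₀ t₀)) :
    ∃ ξ ∈ synSpace (X g₀ t₀), ∀ i, g₀ (X g₀ t₀) i = 0 →
      fderiv ℝ g₀ (X g₀ t₀) (projL (fun i => g₀ (X g₀ t₀) i = 0) ξ) i = - b i := by
  set P : N.Phase := X g₀ t₀ with hP
  obtain ⟨ψ, B, hB0, hψC, hψn, hψl, hψP⟩ := realize P b hb
  obtain ⟨κ, hκ, hroom⟩ := K.room g₀ hg
  have hcard := N.cardIso_nonneg
  have hT := K.T_pos
  have hC := K.C_pos
  have hA : 0 < N.cardIso * B + 1 := by positivity
  set ε : ℝ := κ / (N.cardIso * B + 1) with hε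
  have hε0 : 0 < ε := by positivity
  have hεκ : ε * (N.cardIso * B) ≤ κ := by
    rw [hε, div_mul_eq_mul_div, div_le_iff₀ hA]
    nlinarith
  set s : ℕ → ℝ := fun n => ε * (1 / ((n : ℝ) + 1)) with hs
  have hspos : ∀ n, 0 < s n := fun n => by positivity
  have hsε : ∀ n, s n ≤ ε := fun n => by
    rw [hs]
    simp only
    have h1 : 1 / ((n : ℝ) + 1) ≤ 1 := by
      rw [div_le_one (by positivity)]
      have : (0 : ℝ) ≤ n := Nat.cast_nonneg n
      linarith
    calc ε * (1 / ((n : ℝ) + 1)) ≤ ε * 1 := mul_le_mul_of_nonneg_left h1 hε0.le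
      _ = ε := mul_one _
  have hs0 : Tendsto s atTop (𝓝 0) := by
    have := (tendsto_one_div_add_atTop_nhds_zero_nat (𝕜 := ℝ)).const_mul ε
    rw [mul_zero] at this
    exact this
  set p : ℕ → N.Phase → N.Phase := fun n x => s n • symV ψ x with hp
  set g : ℕ → N.Phase → N.Phase := fun n x => g₀ x + p n x with hgdef
  have hsymC : ContDiff ℝ 1 (symV ψ) := symV_contDiff hψC
  have hpn : ∀ n x, ‖p n x‖ ≤ s n * (N.cardIso * B) := by
    intro n x
    rw [hp]
    simp only
    rw [norm_smul, Real.norm_eq_abs, abs_of_pos (hspos n)]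
    exact mul_le_mul_of_nonneg_left (symV_norm_le hB0 hψn x) (hspos n).le
  have hgn : ∀ n, g n ∈ 𝒢 := by
    intro n
    apply hroom (p n)
    · exact admissible_add (K.adm g₀ hg) hψC (s n)
    · exact hsymC.const_smul (s n)
    · intro x
      refine (hpn n x).trans (le_trans ?_ hεκ)
      exact mul_le_mul_of_nonneg_right (hsε n) (by positivity)
    · intro x y
      rw [hp]
      simp only
      rw [← smul_sub, norm_smul, Real.norm_eq_abs, abs_of_pos (hspos n)]
      have h1 := symV_lip hB0 hψl x y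
      calc _ ≤ s n * (N.cardIso * (B * ‖x - y‖)) := mul_le_mul_of_nonneg_left h1 (hspos n).le
        _ = s n * (N.cardIso * B * ‖x - y‖) := by ring
        _ ≤ ε * (N.cardIso * B * ‖x - y‖) := mul_le_mul_of_nonneg_right (hsε n) (by positivity)
        _ = ε * (N.cardIso * B) * ‖x - y‖ := by ring
        _ ≤ κ * ‖x - y‖ := mul_le_mul_of_nonneg_right hεκ (norm_nonneg _)
  set d : ℕ → N.Phase := fun n => X (g n) t₀ - P with hd
  set R : ℝ := C * (N.cardIso * B * T) with hR
  have hdn : ∀ n, ‖d n‖ ≤ s n * R := by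
    intro n
    have h1 := K.dep g₀ hg (g n) (hgn n) t₀
    have h2 : (fun s => ‖g₀ (X g₀ s) - g n (X g₀ s)‖) = fun s => ‖p n (X g₀ s)‖ := by
      funext s
      rw [hgdef]
      simp only [sub_add_cancel_left, norm_neg]
    rw [h2] at h1
    have hc : Continuous (fun t => ‖p n (X g₀ t)‖) :=
      ((hsymC.const_smul (s n)).continuous.comp (K.cont hg)).norm
    have h3 : ∫ t in (0 : ℝ)..T, ‖p n (X g₀ t)‖ ≤ s n * (N.cardIso * B) * T := by
      calc ∫ t in (0 : ℝ)..T, ‖p n (X g₀ t)‖ ≤ ∫ _t in (0 : ℝ)..T, s n * (N.cardIso * B) :=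
            intervalIntegral.integral_mono_on hT.le (hc.intervalIntegrable _ _)
              (continuous_const.intervalIntegrable _ _) (fun t _ => hpn n _)
        _ = s n * (N.cardIso * B) * T := by
            rw [intervalIntegral.integral_const, sub_zero, smul_eq_mul]; ring
    have h4 : ‖d n‖ ≤ C * ∫ t in (0 : ℝ)..T, ‖p n (X g₀ t)‖ := by
      rw [hd]
      simp only
      rw [norm_sub_rev]
      exact h1
    calc ‖d n‖ ≤ C * (s n * (N.cardIso * B) * T) :=
          h4.trans (mul_le_mul_of_nonneg_left h3 hC.le)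
      _ = s n * R := by rw [hR]; ring
  have hd0 : Tendsto d atTop (𝓝 0) := by
    apply squeeze_zero_norm hdn
    simpa using hs0.mul_const R
  have hXn : ∀ n, X (g n) t₀ = P + d n := fun n => by
    rw [hd]; simp only; abel
  have hXlim : Tendsto (fun n => X (g n) t₀) atTop (𝓝 P) := by
    simp only [hXn]
    simpa using hd0.const_add P
  have hplim : Tendsto (fun n => p n (X (g n) t₀)) atTop (𝓝 0) := by
    apply squeeze_zero_norm (fun n => hpn n _)
    simpa using hs0.mul_const (N.cardIso * B)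
  have hglim : Tendsto (fun n => g n (X (g n) t₀)) atTop (𝓝 (g₀ P)) := by
    have h1 := (((K.contg hg).tendsto P).comp hXlim).add hplim
    rw [add_zero] at h1
    exact h1
  have hc1 : ∀ᶠ n in atTop, ‖X (g n) t₀ - X g₀ t₀‖ < η := by
    have := (hXlim.sub_const (X g₀ t₀)).norm
    exact this.eventually_lt_const (by simpa [hP] using hη)
  have hc2 : ∀ᶠ n in atTop, ‖g n (X (g n) t₀) - g₀ (X g₀ t₀)‖ < η := by
    have := (hglim.sub_const (g₀ (X g₀ t₀))).norm
    exact this.eventually_lt_const (by simpa [hP] using hη)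
  -- a convergent subsequence of the rescaled displacements
  obtain ⟨ξ, -, θ, hθ, hξ⟩ := (isCompact_closedBall (0 : N.Phase) R).tendsto_subseq
    (x := fun n => (s n)⁻¹ • d n) (fun n => by
      rw [mem_closedBall_zero_iff, norm_smul, norm_inv, Real.norm_eq_abs, abs_of_pos (hspos n),
        inv_mul_le_iff₀ (hspos n)]
      exact hdn n)
  have hθt : Tendsto θ atTop atTop := hθ.tendsto_atTop
  refine ⟨ξ, ?_, ?_⟩
  · intro c e h hPce
    have h1 : ∀ᶠ n in atTop, move h ((s n)⁻¹ • d n c) = (s n)⁻¹ • d n e := by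
      filter_upwards [hc1, hc2] with n hn1 hn2
      obtain ⟨_, h3⟩ := ((hloc (g n) (hgn n) t₀ hn1 hn2).1 c e).2 ⟨h, hPce⟩
      have h4 : d n c = X (g n) t₀ c - P c := rfl
      have h5 : d n e = X (g n) t₀ e - P e := rfl
      rw [move_smul, h4, h5, move_sub, h3, hPce]
    have h2 := (tendsto_pi_nhds.1 hξ)
    have h3 : Tendsto (fun n => move h ((s (θ n))⁻¹ • d (θ n) c)) atTop (𝓝 (move h (ξ c))) :=
      ((cont_move h).tendsto _).comp (h2 c)
    exact tendsto_nhds_unique h3 ((h2 e).congr' ((hθt.eventually h1).mono fun n hn => hn.symm))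
  · intro i hi
    set Z : N.Node → Prop := fun i => g₀ P i = 0 with hZ
    have h1 : HasFDerivWithinAt g₀ (fderiv ℝ g₀ P) univ P :=
      ((K.adm g₀ hg).contDiff.differentiable (by norm_num) P).hasFDerivAt.hasFDerivWithinAt
    have he0 : Tendsto (fun n => projL Z (d (θ n))) atTop (𝓝 0) := by
      have h2 := ((projL Z).continuous.tendsto 0).comp (hd0.comp hθt)
      rw [map_zero] at h2
      exact h2
    have heξ : Tendsto (fun n => (s (θ n))⁻¹ • projL Z (d (θ n))) atTop (𝓝 (projL Z ξ)) := by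
      have h2 := ((projL Z).continuous.tendsto ξ).comp hξ
      refine h2.congr fun n => ?_
      simp only [Function.comp_apply, map_smul]
    have h2 := h1.lim he0 (Eventually.of_forall fun _ => mem_univ _) heξ
    have h3 := (tendsto_pi_nhds.1 h2) i
    have h4 : ∀ᶠ n in atTop, (s n)⁻¹ • (g₀ (P + projL Z (d n)) - g₀ P) i =
        - symV ψ (X (g n) t₀) i := by
      filter_upwards [hc1, hc2] with n hn1 hn2
      have h5 : g n (X (g n) t₀) i = 0 := ((hloc (g n) (hgn n) t₀ hn1 hn2).2 i).2 hi
      have h6 : g n (X (g n) t₀) i = g₀ (X (g n) t₀) i + s n • symV ψ (X (g n) t₀) i := rfl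
      have h7 : g₀ (P + projL Z (d n)) i = g₀ (X (g n) t₀) i := by
        apply (K.adm g₀ hg).eq_of_inputs
        rw [hXn n]
        refine Prod.ext ?_ ?_
        · show P i + projL Z (d n) i = P i + d n i
          rw [projL_pos (Z := Z) (d n) hi]
        · funext a
          show P (N.tail a.1) + projL Z (d n) (N.tail a.1) = P (N.tail a.1) + d n (N.tail a.1)
          rw [projL_pos (Z := Z) (d n) (hcl i hi a)]
      rw [Pi.sub_apply, h7, hi, sub_zero]
      rw [h5] at h6
      have h8 : g₀ (X (g n) t₀) i = - (s n • symV ψ (X (g n) t₀) i) :=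
        eq_neg_of_add_eq_zero_left h6.symm
      rw [h8, smul_neg, smul_smul, inv_mul_cancel₀ (hspos n).ne', one_smul]
    have h9 : Tendsto (fun n => - symV ψ (X (g (θ n)) t₀) i) atTop (𝓝 (- b i)) := by
      have h10 := (hsymC.continuous.tendsto P).comp (hXlim.comp hθt)
      rw [hψP] at h10
      exact ((tendsto_pi_nhds.1 h10) i).neg
    exact tendsto_nhds_unique h3 (h9.congr' ((hθt.eventually h4).mono fun n hn => hn.symm))

/-- Balance at stationary nodes. -/
theorem stationary (K : Ctx N 𝒢 T C X τ) {g₀ : N.Phase → N.Phase} (hg : g₀ ∈ 𝒢) {t₀ η : ℝ}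
    (hη : 0 < η) (hloc : LocConst 𝒢 X g₀ t₀ η)
    (hcl : ∀ c, g₀ (X g₀ t₀) c = 0 → ∀ a : N.In c, g₀ (X g₀ t₀) (N.tail a.1) = 0)
    {c d : N.Node} (hcd : Eqv (X g₀ t₀) c d) (hc0 : g₀ (X g₀ t₀) c = 0) :
    ∃ β : N.InputIso c d, pull β (inputs (X g₀ t₀) d) = inputs (X g₀ t₀) c := by
  classical
  set P : N.Phase := X g₀ t₀ with hP
  set Z : N.Node → Prop := fun i => g₀ P i = 0 with hZ
  set A : N.Phase →ₗ[ℝ] N.Phase :=
    ((projL Z).comp (fderiv ℝ g₀ P)).toLinearMap with hA
  set π : N.Phase →ₗ[ℝ] N.Phase := (projL Z).toLinearMap with hπ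
  have h1 : (inpSpace P).map π ≤ ((synSpace P).map π).map A := by
    rintro _ ⟨b, hb, rfl⟩
    obtain ⟨ξ, hξ, hξb⟩ := K.linearized hg hη hloc hcl b hb
    refine ⟨π (-ξ), ⟨-ξ, (synSpace P).neg_mem hξ, rfl⟩, ?_⟩
    funext i
    show projL Z (fderiv ℝ g₀ P (projL Z (-ξ))) i = projL Z b i
    by_cases hi : Z i
    · rw [projL_pos _ hi, projL_pos _ hi, map_neg, map_neg, Pi.neg_apply, hξb i hi, neg_neg]
    · rw [projL_neg _ hi, projL_neg _ hi]
  have h2 : (synSpace P).map π ≤ (inpSpace P).map π := Submodule.map_mono (synSpace_le P)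
  have h3 : Module.finrank ℝ ((inpSpace P).map π) ≤ Module.finrank ℝ ((synSpace P).map π) :=
    (Submodule.finrank_mono h1).trans (Submodule.finrank_map_le A _)
  have h4 : (synSpace P).map π = (inpSpace P).map π := Submodule.eq_of_le_of_finrank_le h2 h3
  by_contra hcon
  -- the indicator of the class of `c`
  let b : N.Phase := fun i =>
    if ∃ β : N.InputIso c i, pull β (inputs P i) = inputs P c then ones (N.dim i) else 0
  have hb : b ∈ inpSpace P := by
    intro i j γ hγ
    by_cases hi : ∃ β : N.InputIso c i, pull β (inputs P i) = inputs P c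
    · have hj : ∃ β : N.InputIso c j, pull β (inputs P j) = inputs P c := by
        obtain ⟨β, hβ⟩ := hi
        refine ⟨β.comp γ, ?_⟩
        rw [← pull_pull, hγ, hβ]
      show move γ.dim_eq (if _ then _ else _) = if _ then _ else _
      rw [if_pos hi, if_pos hj]
      rfl
    · have hj : ¬ ∃ β : N.InputIso c j, pull β (inputs P j) = inputs P c := by
        rintro ⟨β, hβ⟩
        apply hi
        refine ⟨β.comp γ.symm, ?_⟩
        rw [← pull_pull, pull_symm_of hγ, hβ]
      show move γ.dim_eq (if _ then _ else _) = if _ then _ else _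
      rw [if_neg hi, if_neg hj]
      rfl
  have h5 : π b ∈ (synSpace P).map π := by
    rw [h4]
    exact ⟨b, hb, rfl⟩
  obtain ⟨ξ, hξ, hξb⟩ := h5
  obtain ⟨h, hh⟩ := hcd
  have hd0 : g₀ P d = 0 := by
    have h6 := K.velocity_of_locConst hloc hg (t₁ := t₀) (by simpa using hη)
      (by simpa using hη) h ⟨h, hh⟩
    rw [← hP] at h6
    rw [← h6, hc0, move_zero]
  have h6 : ξ c = b c := by
    have h7 := congrFun hξb c
    have h8 : projL Z ξ c = projL Z b c := h7
    rwa [projL_pos _ hc0, projL_pos _ hc0] at h8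
  have h7 : ξ d = b d := by
    have h7 := congrFun hξb d
    have h8 : projL Z ξ d = projL Z b d := h7
    rwa [projL_pos _ hd0, projL_pos _ hd0] at h8
  have h8 : b c = ones (N.dim c) := if_pos ⟨InputIso.refl c, rfl⟩
  have h9 : b d = 0 := if_neg hcon
  have h10 := hξ c d h hh
  rw [h6, h7, h8, h9, move_ones] at h10
  have h11 := congrFun h10 ⟨0, N.dim_pos d⟩
  simp [ones] at h11

end Ctx

end Network

end Pool.Agent.W5h40.RS
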